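import Mathlib

set_option autoImplicit false

open MvPolynomial Cardinal WeierstrassCurve.Affine Filter Topology

namespace Pool.Agent.Results.MP_55ef7c_ag.QuarticGrowth

universe u

section Statement
variable {K : Type*} [Field K] {N : ℕ}

/-- `F` is a tuple of `N + 1` forms of the same degree `d` in `N + 1` variables whose only common
factors are the nonzero constants: the reduced homogeneous representation of a rational self-map of
projective `N`-space of degree `d`. -/
structure IsReduced (F : Fin (N + 1) → MvPolynomial (Fin (N + 1)) K) (d : ℕ) : Prop where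
  homogeneous : ∀ i, (F i).IsHomogeneous d
  coprime : ∀ c : MvPolynomial (Fin (N + 1)) K, (∀ i, c ∣ F i) → IsUnit c

/-- The rational map is dominant: its coordinates satisfy no nontrivial polynomial relation. -/
def IsDominant (F : Fin (N + 1) → MvPolynomial (Fin (N + 1)) K) : Prop :=
  ∀ P : MvPolynomial (Fin (N + 1)) K, aeval F P = 0 → P = 0

/-- The `n`-fold composition of `F` with itself, by plain substitution. -/
noncomputable def iter (F : Fin (N + 1) → MvPolynomial (Fin (N + 1)) K) :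
    ℕ → Fin (N + 1) → MvPolynomial (Fin (N + 1)) K
  | 0 => X
  | n + 1 => fun i => aeval F (iter F n i)

/-- `e` is the degree of the `n`-th iterate: after removing the common factor `h` of the `n`-fold
composition one is left with a reduced tuple of degree `e`. -/
def IsIterateDegree (F : Fin (N + 1) → MvPolynomial (Fin (N + 1)) K) (n e : ℕ) : Prop :=
  ∃ (h : MvPolynomial (Fin (N + 1)) K) (G : Fin (N + 1) → MvPolynomial (Fin (N + 1)) K),
    h ≠ 0 ∧ (∀ i, iter F n i = h * G i) ∧ IsReduced G e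

/-- `f ≍ g`: there are positive constants with `c₁ f(n) ≤ g(n) ≤ c₂ f(n)` for all `n ≥ c₃`. -/
def Comparable (f g : ℕ → ℝ) : Prop :=
  ∃ c₁ c₂ c₃ : ℝ, 0 < c₁ ∧ 0 < c₂ ∧ 0 < c₃ ∧
    ∀ n : ℕ, c₃ ≤ (n : ℝ) → c₁ * f n ≤ g n ∧ g n ≤ c₂ * f n

end Statement

section HomogFactor
variable {K : Type*} [Field K] {σ : Type*}

/-- grading map -/
noncomputable def gr : MvPolynomial σ K →ₐ[K] Polynomial (MvPolynomial σ K) :=
  aeval (fun i => Polynomial.C (X i) * Polynomial.X)

lemma gr_monomial (d : σ →₀ ℕ) (c : K) :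
    gr (monomial d c) = Polynomial.C (monomial d c) * Polynomial.X ^ d.degree := by
  classical
  rw [gr, aeval_monomial]
  simp only [mul_pow, Finsupp.prod_mul]
  rw [monomial_eq, Polynomial.C_mul]
  have h1 : (d.prod fun i k => (Polynomial.X : Polynomial (MvPolynomial σ K)) ^ k)
      = Polynomial.X ^ d.degree := by
    rw [Finsupp.prod, Finset.prod_pow_eq_pow_sum]
    rfl
  rw [h1]
  have h2 : (d.prod fun i k => (Polynomial.C (X i : MvPolynomial σ K)) ^ k)
      = Polynomial.C (d.prod fun i k => (X i : MvPolynomial σ K) ^ k) := by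
    simp only [Finsupp.prod, map_prod, map_pow]
  rw [h2]
  have h3 : (algebraMap K (Polynomial (MvPolynomial σ K))) c
      = Polynomial.C (MvPolynomial.C c) := by
    rfl
  rw [h3]; ring

lemma gr_coeff (p : MvPolynomial σ K) (n : ℕ) :
    (gr p).coeff n = homogeneousComponent n p := by
  classical
  induction p using MvPolynomial.induction_on' with
  | monomial d c =>
    rw [gr_monomial, Polynomial.coeff_C_mul, Polynomial.coeff_X_pow]
    ext m
    rw [coeff_homogeneousComponent]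
    by_cases h : n = d.degree
    · subst h
      simp only [if_true, mul_one, coeff_monomial]
      by_cases hm : d = m
      · subst hm; simp
      · simp [hm]
    · simp only [if_neg h, mul_zero, coeff_zero, coeff_monomial]
      by_cases hm : d = m
      · subst hm; simp [Ne.symm h]
      · simp [hm]
  | add p q hp hq => simp [hp, hq]

lemma gr_homog {p : MvPolynomial σ K} {n : ℕ} (hp : p.IsHomogeneous n) :
    gr p = Polynomial.C p * Polynomial.X ^ n := by
  ext1 m
  rw [gr_coeff, Polynomial.coeff_C_mul, Polynomial.coeff_X_pow]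
  rw [homogeneousComponent_of_mem ((mem_homogeneousSubmodule n p).2 hp)]
  by_cases h : n = m
  · subst h; simp
  · simp [Ne.symm h]

lemma homog_of_gr {p : MvPolynomial σ K} {n : ℕ} {c : MvPolynomial σ K}
    (hp : gr p = Polynomial.C c * Polynomial.X ^ n) : p.IsHomogeneous n := by
  have h0 : ∀ m, m ≠ n → homogeneousComponent m p = 0 := by
    intro m hm
    rw [← gr_coeff, hp, Polynomial.coeff_C_mul, Polynomial.coeff_X_pow, if_neg hm, mul_zero]
  have h1 : p = homogeneousComponent n p := by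
    conv_lhs => rw [← sum_homogeneousComponent p]
    by_cases hn : n ∈ Finset.range (p.totalDegree + 1)
    · rw [Finset.sum_eq_single_of_mem n hn (fun m _ hm => h0 m hm)]
    · rw [Finset.sum_eq_zero (fun m hm => h0 m (by rintro rfl; exact hn hm))]
      rw [homogeneousComponent_eq_zero]
      simpa using hn
  rw [h1]
  exact homogeneousComponent_isHomogeneous n p

lemma gr_injective : Function.Injective (gr : MvPolynomial σ K →ₐ[K] _) := by
  intro p q h
  rw [← sum_homogeneousComponent p, ← sum_homogeneousComponent q]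
  have h1 : ∀ n, homogeneousComponent n p = homogeneousComponent n q := by
    intro n; rw [← gr_coeff, ← gr_coeff, h]
  have h2 : p = q := by
    ext m
    have := congrArg (coeff m) (h1 m.degree)
    simpa [coeff_homogeneousComponent] using this
  rw [h2]

lemma homog_of_mul {g k : MvPolynomial σ K} {n : ℕ} (h : (g * k).IsHomogeneous n)
    (h0 : g * k ≠ 0) : ∃ i j, i + j = n ∧ g.IsHomogeneous i ∧ k.IsHomogeneous j := by
  have hg : g ≠ 0 := left_ne_zero_of_mul h0
  have hk : k ≠ 0 := right_ne_zero_of_mul h0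
  have hg' : gr g ≠ 0 := by
    intro hh; exact hg (gr_injective (by rw [hh, map_zero]))
  have hk' : gr k ≠ 0 := by
    intro hh; exact hk (gr_injective (by rw [hh, map_zero]))
  have e := gr_homog h
  rw [map_mul] at e
  have d1 : (gr g).natDegree + (gr k).natDegree = n := by
    rw [← Polynomial.natDegree_mul hg' hk', e, Polynomial.natDegree_C_mul_X_pow n _ h0]
  have d2 : (gr g).natTrailingDegree + (gr k).natTrailingDegree = n := by
    rw [← Polynomial.natTrailingDegree_mul hg' hk', e, Polynomial.natTrailingDegree_mul_X_pow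
      (by simpa using h0), Polynomial.natTrailingDegree_C, zero_add]
  have l1 := Polynomial.natTrailingDegree_le_natDegree (gr g)
  have l2 := Polynomial.natTrailingDegree_le_natDegree (gr k)
  have e1 : (gr g).natTrailingDegree = (gr g).natDegree := by omega
  have e2 : (gr k).natTrailingDegree = (gr k).natDegree := by omega
  have key : ∀ p : Polynomial (MvPolynomial σ K), p.natTrailingDegree = p.natDegree →
      p = Polynomial.C (p.coeff p.natDegree) * Polynomial.X ^ p.natDegree := by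
    intro p hp
    ext1 m
    rw [Polynomial.coeff_C_mul, Polynomial.coeff_X_pow]
    rcases lt_trichotomy m p.natDegree with hm | hm | hm
    · rw [if_neg hm.ne, mul_zero]
      exact Polynomial.coeff_eq_zero_of_lt_natTrailingDegree (hp ▸ hm)
    · subst hm; simp
    · rw [if_neg hm.ne', mul_zero]
      exact Polynomial.coeff_eq_zero_of_natDegree_lt hm
  exact ⟨_, _, d1, homog_of_gr (key _ e1), homog_of_gr (key _ e2)⟩

end HomogFactor

section Extract
variable {K : Type*} [Field K] {N : ℕ}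

lemma extract (H : Fin (N + 1) → MvPolynomial (Fin (N + 1)) K) :
    ∃ (g : MvPolynomial (Fin (N + 1)) K) (F : Fin (N + 1) → MvPolynomial (Fin (N + 1)) K),
      (∀ i, H i = g * F i) ∧
      ∀ c : MvPolynomial (Fin (N + 1)) K, (∀ i, c ∣ F i) → IsUnit c := by
  classical
  have : NormalizedGCDMonoid (MvPolynomial (Fin (N + 1)) K) :=
    Classical.choice inferInstance
  obtain ⟨F, h1, h2⟩ := Finset.extract_gcd (s := Finset.univ) H Finset.univ_nonempty
  refine ⟨Finset.univ.gcd H, F, fun i => h1 i (Finset.mem_univ i), fun c hc => ?_⟩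
  have : c ∣ Finset.univ.gcd F := Finset.dvd_gcd (fun i _ => hc i)
  rw [h2] at this
  exact isUnit_of_dvd_one this
end Extract

section Deg
variable {K : Type*} [Field K] {σ : Type*}


/-- `g` is a quotient of two polynomials of total degree at most `e` -/
def DegLE (g : FractionRing (MvPolynomial σ K)) (e : ℕ) : Prop :=
  ∃ p q : MvPolynomial σ K, q ≠ 0 ∧ p.totalDegree ≤ e ∧ q.totalDegree ≤ e ∧
    g = algebraMap _ _ p / algebraMap _ _ q

lemma map_ne {q : MvPolynomial σ K} (hq : q ≠ 0) :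
    algebraMap (MvPolynomial σ K) (FractionRing (MvPolynomial σ K)) q ≠ 0 := by
  simpa using hq

lemma DegLE.mono {g : FractionRing (MvPolynomial σ K)} {e f : ℕ} (h : DegLE g e) (hef : e ≤ f) :
    DegLE g f := by
  obtain ⟨p, q, hq, h1, h2, h3⟩ := h
  exact ⟨p, q, hq, h1.trans hef, h2.trans hef, h3⟩

lemma DegLE.const (c : K) (e : ℕ) :
    DegLE (algebraMap K (FractionRing (MvPolynomial σ K)) c) e := by
  refine ⟨C c, 1, one_ne_zero, by simp, by simp, ?_⟩
  rw [map_one, div_one]; rfl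

lemma DegLE.one (e : ℕ) : DegLE (1 : FractionRing (MvPolynomial σ K)) e := by
  simpa using DegLE.const (σ := σ) (1 : K) e

lemma DegLE.zero (e : ℕ) : DegLE (0 : FractionRing (MvPolynomial σ K)) e := by
  simpa using DegLE.const (σ := σ) (0 : K) e

lemma DegLE.nat (n : ℕ) (e : ℕ) : DegLE (n : FractionRing (MvPolynomial σ K)) e := by
  simpa using DegLE.const (σ := σ) (n : K) e

lemma DegLE.two (e : ℕ) : DegLE (2 : FractionRing (MvPolynomial σ K)) e := DegLE.nat 2 e
lemma DegLE.three (e : ℕ) : DegLE (3 : FractionRing (MvPolynomial σ K)) e := DegLE.nat 3 e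
lemma DegLE.four (e : ℕ) : DegLE (4 : FractionRing (MvPolynomial σ K)) e := DegLE.nat 4 e

lemma DegLE.neg {g : FractionRing (MvPolynomial σ K)} {e : ℕ} (h : DegLE g e) :
    DegLE (-g) e := by
  obtain ⟨p, q, hq, h1, h2, h3⟩ := h
  exact ⟨-p, q, hq, by rwa [totalDegree_neg], h2, by rw [h3, map_neg, neg_div]⟩

lemma DegLE.mul {g h : FractionRing (MvPolynomial σ K)} {e f : ℕ} (hg : DegLE g e)
    (hh : DegLE h f) : DegLE (g * h) (e + f) := by
  obtain ⟨p, q, hq, h1, h2, h3⟩ := hg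
  obtain ⟨p', q', hq', h1', h2', h3'⟩ := hh
  refine ⟨p * p', q * q', mul_ne_zero hq hq', ?_, ?_, ?_⟩
  · exact (totalDegree_mul _ _).trans (add_le_add h1 h1')
  · exact (totalDegree_mul _ _).trans (add_le_add h2 h2')
  · rw [h3, h3', map_mul, map_mul, div_mul_div_comm]

lemma DegLE.inv {g : FractionRing (MvPolynomial σ K)} {e : ℕ} (h : DegLE g e) :
    DegLE (g⁻¹) e := by
  obtain ⟨p, q, hq, h1, h2, h3⟩ := h
  by_cases hp : p = 0
  · subst hp
    rw [h3, map_zero, zero_div, inv_zero]; exact DegLE.zero e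
  · exact ⟨q, p, hp, h2, h1, by rw [h3, inv_div]⟩

lemma DegLE.div {g h : FractionRing (MvPolynomial σ K)} {e f : ℕ} (hg : DegLE g e)
    (hh : DegLE h f) : DegLE (g / h) (e + f) := by
  rw [div_eq_mul_inv]; exact hg.mul hh.inv

lemma DegLE.add {g h : FractionRing (MvPolynomial σ K)} {e f : ℕ} (hg : DegLE g e)
    (hh : DegLE h f) : DegLE (g + h) (e + f) := by
  obtain ⟨p, q, hq, h1, h2, h3⟩ := hg
  obtain ⟨p', q', hq', h1', h2', h3'⟩ := hh
  refine ⟨p * q' + q * p', q * q', mul_ne_zero hq hq', ?_, ?_, ?_⟩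
  · refine (totalDegree_add _ _).trans (max_le ?_ ?_)
    · exact (totalDegree_mul _ _).trans (add_le_add h1 h2')
    · exact (totalDegree_mul _ _).trans (add_le_add h2 h1')
  · exact (totalDegree_mul _ _).trans (add_le_add h2 h2')
  · rw [h3, h3', div_add_div _ _ (map_ne hq) (map_ne hq')]
    simp only [map_add, map_mul]

lemma DegLE.sub {g h : FractionRing (MvPolynomial σ K)} {e f : ℕ} (hg : DegLE g e)
    (hh : DegLE h f) : DegLE (g - h) (e + f) := by
  rw [sub_eq_add_neg]; exact hg.add hh.neg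

lemma DegLE.pow {g : FractionRing (MvPolynomial σ K)} {e : ℕ} (hg : DegLE g e) (n : ℕ) :
    DegLE (g ^ n) (n * e) := by
  induction n with
  | zero => simpa using DegLE.one (σ := σ) (K := K) _
  | succ n ih => rw [pow_succ]; exact (ih.mul hg).mono (by ring_nf; rfl)

/-- `g` is a quotient of two forms of the same degree -/
def HomFrac (g : FractionRing (MvPolynomial σ K)) : Prop :=
  ∃ (d : ℕ) (p q : MvPolynomial σ K), q ≠ 0 ∧ p.IsHomogeneous d ∧ q.IsHomogeneous d ∧
    g = algebraMap _ _ p / algebraMap _ _ q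

lemma HomFrac.const (c : K) : HomFrac (algebraMap K (FractionRing (MvPolynomial σ K)) c) := by
  refine ⟨0, C c, 1, one_ne_zero, isHomogeneous_C _ _, isHomogeneous_one _ _, ?_⟩
  rw [map_one, div_one]; rfl

lemma HomFrac.one : HomFrac (1 : FractionRing (MvPolynomial σ K)) := by
  simpa using HomFrac.const (σ := σ) (1 : K)

lemma HomFrac.zero : HomFrac (0 : FractionRing (MvPolynomial σ K)) := by
  simpa using HomFrac.const (σ := σ) (0 : K)

lemma HomFrac.nat (n : ℕ) : HomFrac (n : FractionRing (MvPolynomial σ K)) := by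
  simpa using HomFrac.const (σ := σ) (n : K)

lemma HomFrac.two : HomFrac (2 : FractionRing (MvPolynomial σ K)) := HomFrac.nat 2
lemma HomFrac.four : HomFrac (4 : FractionRing (MvPolynomial σ K)) := HomFrac.nat 4

lemma HomFrac.neg {g : FractionRing (MvPolynomial σ K)} (h : HomFrac g) : HomFrac (-g) := by
  obtain ⟨d, p, q, hq, h1, h2, h3⟩ := h
  exact ⟨d, -p, q, hq, h1.neg, h2, by rw [h3, map_neg, neg_div]⟩

lemma HomFrac.mul {g h : FractionRing (MvPolynomial σ K)} (hg : HomFrac g)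
    (hh : HomFrac h) : HomFrac (g * h) := by
  obtain ⟨d, p, q, hq, h1, h2, h3⟩ := hg
  obtain ⟨d', p', q', hq', h1', h2', h3'⟩ := hh
  refine ⟨d + d', p * p', q * q', mul_ne_zero hq hq', h1.mul h1', h2.mul h2', ?_⟩
  rw [h3, h3', map_mul, map_mul, div_mul_div_comm]

lemma HomFrac.inv {g : FractionRing (MvPolynomial σ K)} (h : HomFrac g) : HomFrac (g⁻¹) := by
  obtain ⟨d, p, q, hq, h1, h2, h3⟩ := h
  by_cases hp : p = 0
  · subst hp
    rw [h3, map_zero, zero_div, inv_zero]; exact HomFrac.zero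
  · exact ⟨d, q, p, hp, h2, h1, by rw [h3, inv_div]⟩

lemma HomFrac.div {g h : FractionRing (MvPolynomial σ K)} (hg : HomFrac g)
    (hh : HomFrac h) : HomFrac (g / h) := by
  rw [div_eq_mul_inv]; exact hg.mul hh.inv

lemma HomFrac.add {g h : FractionRing (MvPolynomial σ K)} (hg : HomFrac g)
    (hh : HomFrac h) : HomFrac (g + h) := by
  obtain ⟨d, p, q, hq, h1, h2, h3⟩ := hg
  obtain ⟨d', p', q', hq', h1', h2', h3'⟩ := hh
  refine ⟨d + d', p * q' + q * p', q * q', mul_ne_zero hq hq', (h1.mul h2').add (h2.mul h1'),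
    h2.mul h2', ?_⟩
  rw [h3, h3', div_add_div _ _ (map_ne hq) (map_ne hq')]
  simp only [map_add, map_mul]

lemma HomFrac.sub {g h : FractionRing (MvPolynomial σ K)} (hg : HomFrac g)
    (hh : HomFrac h) : HomFrac (g - h) := by
  rw [sub_eq_add_neg]; exact hg.add hh.neg

lemma HomFrac.pow {g : FractionRing (MvPolynomial σ K)} (hg : HomFrac g) (n : ℕ) :
    HomFrac (g ^ n) := by
  induction n with
  | zero => simpa using HomFrac.one (σ := σ) (K := K)
  | succ n ih => rw [pow_succ]; exact ih.mul hg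

end Deg

section Curve
variable {F : Type*} [Field F]

/-- the curve `y^2 = x^3 + D` -/
def crv (D : F) : WeierstrassCurve.Affine F := ⟨0, 0, 0, 0, D⟩

lemma crv_eqn {D x y : F} : (crv D).Equation x y ↔ y ^ 2 = x ^ 3 + D := by
  rw [WeierstrassCurve.Affine.equation_iff]
  simp [crv]

lemma crv_nonsing {D x y : F} (h2 : (2 : F) ≠ 0) (h3 : (3 : F) ≠ 0) (hD : D ≠ 0)
    (h : y ^ 2 = x ^ 3 + D) : (crv D).Nonsingular x y := by
  rw [WeierstrassCurve.Affine.nonsingular_iff]
  refine ⟨crv_eqn.2 h, ?_⟩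
  simp only [crv]
  by_contra hc
  push Not at hc
  obtain ⟨ha, hb⟩ := hc
  have hy : y = 0 := by
    have : 2 * y = 0 := by linear_combination hb
    simpa [h2] using this
  have hx : x = 0 := by
    have : 3 * x ^ 2 = 0 := by linear_combination -ha
    simpa [h3] using this
  subst hy hx
  apply hD
  linear_combination -h

variable [DecidableEq F]

lemma crv_add_chord {D x₁ y₁ x₂ y₂ : F} (h₁ : (crv D).Nonsingular x₁ y₁)
    (h₂ : (crv D).Nonsingular x₂ y₂) (hx : x₁ ≠ x₂) (x₃ y₃ : F)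
    (hx₃ : x₃ = ((y₁ - y₂) / (x₁ - x₂)) ^ 2 - x₁ - x₂)
    (hy₃ : y₃ = -((y₁ - y₂) / (x₁ - x₂) * (x₃ - x₁) + y₁)) :
    ∃ h₃ : (crv D).Nonsingular x₃ y₃, Point.some x₁ y₁ h₁ + Point.some x₂ y₂ h₂
      = Point.some x₃ y₃ h₃ := by
  have e1 : (crv D).addX x₁ x₂ ((crv D).slope x₁ x₂ y₁ y₂) = x₃ := by
    rw [slope_of_X_ne hx, hx₃]; simp [addX, crv]
  have e2 : (crv D).addY x₁ x₂ y₁ ((crv D).slope x₁ x₂ y₁ y₂) = y₃ := by
    rw [addY, negAddY, e1, slope_of_X_ne hx, hy₃]; simp [negY, crv]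
  have h := nonsingular_add h₁ h₂ (fun hxy => hx hxy.1)
  rw [e1, e2] at h
  refine ⟨h, ?_⟩
  rw [Point.add_of_X_ne hx]
  simp only [Point.some.injEq]
  exact ⟨e1, e2⟩

/-- the doubling formula -/
lemma crv_double {D x y : F} (h2 : (2 : F) ≠ 0) (h : (crv D).Nonsingular x y) (hy : y ≠ 0) :
    ∃ h' : (crv D).Nonsingular ((3 * x ^ 2 / (2 * y)) ^ 2 - x - x)
        (-((3 * x ^ 2 / (2 * y)) * (((3 * x ^ 2 / (2 * y)) ^ 2 - x - x) - x) + y)),
      Point.some x y h + Point.some x y h = Point.some _ _ h' := by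
  have hne : y ≠ (crv D).negY x y := by
    intro hh
    simp only [negY, crv] at hh
    apply hy
    have : 2 * y = 0 := by linear_combination hh
    simpa [h2] using this
  have hs : (crv D).slope x x y y = 3 * x ^ 2 / (2 * y) := by
    rw [slope_of_Y_ne rfl hne]; simp only [negY, crv]; ring_nf
  have e1 : (crv D).addX x x ((crv D).slope x x y y) = (3 * x ^ 2 / (2 * y)) ^ 2 - x - x := by
    rw [hs]; simp [addX, crv]
  have e2 : (crv D).addY x x y ((crv D).slope x x y y) =
      (-((3 * x ^ 2 / (2 * y)) * (((3 * x ^ 2 / (2 * y)) ^ 2 - x - x) - x) + y)) := by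
    rw [addY, negAddY, e1, hs]; simp [negY, crv]
  have h' := nonsingular_add h h (fun hxy => hne hxy.2)
  rw [e1, e2] at h'
  refine ⟨h', ?_⟩
  rw [Point.add_self_of_Y_ne hne]
  simp only [Point.some.injEq]
  exact ⟨e1, e2⟩

/-- general shape of a sum of two points -/
lemma crv_add_cases {D : F} (P Q : (crv D).Point) {x₃ y₃ : F} {h₃ : (crv D).Nonsingular x₃ y₃}
    (h : P + Q = Point.some x₃ y₃ h₃) :
    (P = 0 ∧ Q = Point.some x₃ y₃ h₃) ∨ (Q = 0 ∧ P = Point.some x₃ y₃ h₃) ∨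
    ∃ x₁ y₁ h₁ x₂ y₂ h₂, P = Point.some x₁ y₁ h₁ ∧ Q = Point.some x₂ y₂ h₂ ∧
      ∃ m, (m = 0 ∨ m = 3 * x₁ ^ 2 / (2 * y₁) ∨ m = (y₁ - y₂) / (x₁ - x₂)) ∧
        x₃ = m ^ 2 - x₁ - x₂ ∧ y₃ = -(m * (x₃ - x₁) + y₁) := by
  rcases P with _ | ⟨x₁, y₁, h₁⟩
  · left; refine ⟨rfl, ?_⟩
    rwa [← Point.zero_def, zero_add] at h
  rcases Q with _ | ⟨x₂, y₂, h₂⟩
  · right; left; refine ⟨rfl, ?_⟩
    rwa [← Point.zero_def, add_zero] at h
  right; right
  refine ⟨x₁, y₁, h₁, x₂, y₂, h₂, rfl, rfl, (crv D).slope x₁ x₂ y₁ y₂, ?_, ?_, ?_⟩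
  · rw [WeierstrassCurve.Affine.slope]
    split_ifs with ha hb
    · left; rfl
    · right; left
      simp only [negY, crv]; ring_nf
    · right; right; rfl
  · by_cases hxy : x₁ = x₂ ∧ y₁ = (crv D).negY x₂ y₂
    · rw [Point.add_of_Y_eq hxy.1 hxy.2] at h
      exact absurd h.symm (Point.some_ne_zero _)
    · rw [Point.add_some hxy] at h
      simp only [Point.some.injEq] at h
      rw [← h.1]; simp [addX, crv]
  · by_cases hxy : x₁ = x₂ ∧ y₁ = (crv D).negY x₂ y₂
    · rw [Point.add_of_Y_eq hxy.1 hxy.2] at h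
      exact absurd h.symm (Point.some_ne_zero _)
    · rw [Point.add_some hxy] at h
      simp only [Point.some.injEq] at h
      rw [← h.2, ← h.1]; simp [addY, negAddY, negY, crv]

/-- coordinates lie in a subfield -/
def PtIn {D : F} (M : Subfield F) (P : (crv D).Point) : Prop :=
  ∀ x y h, P = Point.some x y h → x ∈ M ∧ y ∈ M

omit [DecidableEq F] in
lemma PtIn.neg {D : F} {M : Subfield F} {P : (crv D).Point} (hP : PtIn M P) : PtIn M (-P) := by
  intro x y h e
  have e' : P = Point.some x (-y) (by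
      have := (nonsingular_neg (W' := crv D) x y).2 h
      simpa [negY, crv] using this) := by
    rw [← neg_neg P, e, Point.neg_some]
    simp [negY, crv]
  have := hP _ _ _ e'
  exact ⟨this.1, by simpa using M.neg_mem this.2⟩

lemma PtIn.add {D : F} {M : Subfield F} {P Q : (crv D).Point} (hP : PtIn M P) (hQ : PtIn M Q) :
    PtIn M (P + Q) := by
  intro x y h e
  rcases crv_add_cases P Q e with ⟨_, hQ'⟩ | ⟨_, hP'⟩ |
    ⟨x₁, y₁, h₁, x₂, y₂, h₂, rfl, rfl, m, hm, hx, hy⟩
  · exact hQ _ _ _ hQ'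
  · exact hP _ _ _ hP'
  · obtain ⟨a1, b1⟩ := hP _ _ _ rfl
    obtain ⟨a2, b2⟩ := hQ _ _ _ rfl
    have hmM : m ∈ M := by
      rcases hm with rfl | rfl | rfl
      · exact M.zero_mem
      · exact M.div_mem (M.mul_mem (by exact_mod_cast natCast_mem M 3) (M.pow_mem a1 2))
          (M.mul_mem (by exact_mod_cast natCast_mem M 2) b1)
      · exact M.div_mem (M.sub_mem b1 b2) (M.sub_mem a1 a2)
    have hxM : x ∈ M := by
      rw [hx]; exact M.sub_mem (M.sub_mem (M.pow_mem hmM 2) a1) a2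
    refine ⟨hxM, ?_⟩
    rw [hy]
    exact M.neg_mem (M.add_mem (M.mul_mem hmM (M.sub_mem hxM a1)) b1)

end Curve

section Tr
variable {K : Type*} [Field K]

/-- the elements of `L` algebraic over the algebra generated by `y` form a subfield -/
noncomputable def algSub {L : Type*} [Field L] [Algebra K L] {ι : Type*} (y : ι → L) :
    Subfield L where
  carrier := {z | IsAlgebraic (Algebra.adjoin K (Set.range y)) z}
  mul_mem' ha hb := ha.mul hb
  one_mem' := isAlgebraic_one
  add_mem' ha hb := ha.add hb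
  zero_mem' := isAlgebraic_zero
  neg_mem' ha := ha.neg
  inv_mem' _ ha := IsAlgebraic.inv_iff.2 ha

lemma mem_algSub_self {L : Type*} [Field L] [Algebra K L] {ι : Type*} (y : ι → L) (i : ι) :
    y i ∈ algSub (K := K) y :=
  isAlgebraic_algebraMap (⟨y i, Algebra.subset_adjoin ⟨i, rfl⟩⟩ :
    Algebra.adjoin K (Set.range y))

lemma mem_algSub_const {L : Type*} [Field L] [Algebra K L] {ι : Type*} (y : ι → L) (c : K) :
    algebraMap K L c ∈ algSub (K := K) y :=
  isAlgebraic_algebraMap (algebraMap K (Algebra.adjoin K (Set.range y)) c)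

lemma mem_algSub_of_pow {L : Type*} [Field L] [Algebra K L] {ι : Type*} (y : ι → L) {z : L}
    {n : ℕ} (hn : 0 < n) (h : z ^ n ∈ algSub (K := K) y) : z ∈ algSub (K := K) y :=
  IsAlgebraic.of_pow hn h

lemma algInd_of_mem {y : Fin 4 → FractionRing (MvPolynomial (Fin 4) K)}
    (h : ∀ i, algebraMap (MvPolynomial (Fin 4) K) (FractionRing (MvPolynomial (Fin 4) K)) (X i)
      ∈ algSub (K := K) y) : AlgebraicIndependent K y := by
  have hp : ∀ p : MvPolynomial (Fin 4) K, algebraMap (MvPolynomial (Fin 4) K) (FractionRing (MvPolynomial (Fin 4) K)) p ∈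
      algSub (K := K) y := by
    intro p
    induction p using MvPolynomial.induction_on with
    | C c => exact mem_algSub_const y c
    | add p q hp hq => rw [map_add]; exact add_mem hp hq
    | mul_X p i hp => rw [map_mul]; exact mul_mem hp (h i)
  have hall : ∀ z : FractionRing (MvPolynomial (Fin 4) K), z ∈ algSub (K := K) y := by
    intro z
    obtain ⟨p, q, _, rfl⟩ := IsFractionRing.div_surjective (A := MvPolynomial (Fin 4) K) z
    exact div_mem (hp p) (hp q)
  have : Algebra.IsAlgebraic (Algebra.adjoin K (Set.range y))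
      (FractionRing (MvPolynomial (Fin 4) K)) := ⟨hall⟩
  have hx : AlgebraicIndependent K
      (fun i : Fin 4 => algebraMap (MvPolynomial (Fin 4) K)
        (FractionRing (MvPolynomial (Fin 4) K)) (X i)) := by
    have h0 : AlgebraicIndependent K (X : Fin 4 → MvPolynomial (Fin 4) K) :=
      MvPolynomial.algebraicIndependent_X _ _
    exact h0.map' (f := IsScalarTower.toAlgHom K (MvPolynomial (Fin 4) K)
      (FractionRing (MvPolynomial (Fin 4) K)))
      (IsFractionRing.injective (MvPolynomial (Fin 4) K) (FractionRing (MvPolynomial (Fin 4) K)))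
  have hle := hx.lift_cardinalMk_le_trdeg
  refine (Algebra.IsAlgebraic.isTranscendenceBasis_of_lift_le_trdeg_of_finite K y ?_).1
  simpa using hle

end Tr

section Formulas
variable {L : Type*} [Field L]

def den (a b s : L) : L := (b ^ 3 - 1) - s ^ 2 * (a ^ 3 - 1)
def vm (a b s : L) : L := 2 * (s * (a ^ 3 - 1) - (b ^ 3 - 1)) / den a b s
def vv (a b s : L) : L := 1 + vm a b s
def ww (a b s : L) : L := 1 + s * vm a b s
def kap (a b s : L) : L :=
  4 * s * (1 - s) * (s * (a ^ 3 - 1) - (b ^ 3 - 1)) / (den a b s) ^ 2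

lemma vv_eqn {a b s : L} (h : den a b s ≠ 0) :
    vv a b s ^ 2 = 1 + kap a b s * (a ^ 3 - 1) := by
  have h' : den a b s ^ 2 ≠ 0 := pow_ne_zero 2 h
  rw [vv, vm, kap]
  field_simp
  rw [den]; ring

lemma ww_eqn {a b s : L} (h : den a b s ≠ 0) :
    ww a b s ^ 2 = 1 + kap a b s * (b ^ 3 - 1) := by
  have h' : den a b s ^ 2 ≠ 0 := pow_ne_zero 2 h
  rw [ww, vm, kap]
  field_simp
  rw [den]; ring

/-- recovering the parameters from a point of the threefold -/
lemma recover {κ a b v w s : L} (h2 : (2 : L) ≠ 0) (hv : v ^ 2 = 1 + κ * (a ^ 3 - 1))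
    (hw : w ^ 2 = 1 + κ * (b ^ 3 - 1)) (hv1 : v ^ 2 ≠ 1) (hw1 : w ≠ 1) (hvw : v ≠ w)
    (hs : s = (w - 1) / (v - 1)) :
    den a b s ≠ 0 ∧ vv a b s = v ∧ ww a b s = w ∧ kap a b s = κ := by
  have hv1' : v - 1 ≠ 0 := by
    intro h; apply hv1; rw [sub_eq_zero.1 h]; ring
  have hκ : κ ≠ 0 := by
    rintro rfl; apply hv1; rw [hv]; ring
  have hα : a ^ 3 - 1 ≠ 0 := by
    intro h; apply hv1; rw [hv, h]; ring
  have hs1 : s * (v - 1) = w - 1 := by rw [hs]; field_simp
  -- s (w+1) α = (v+1) β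
  have e1 : s * (w + 1) * (a ^ 3 - 1) = (v + 1) * (b ^ 3 - 1) := by
    have : κ * (v - 1) * (s * (w + 1) * (a ^ 3 - 1)) = κ * (v - 1) * ((v + 1) * (b ^ 3 - 1)) := by
      linear_combination (w + 1) * (a ^ 3 - 1) * κ * hs1 + (a ^ 3 - 1) * κ * hw
        - κ * (b ^ 3 - 1) * hv
    exact mul_left_cancel₀ (mul_ne_zero hκ hv1') this
  have e2 : (v - 1) * den a b s = 2 * (s * (a ^ 3 - 1) - (b ^ 3 - 1)) := by
    rw [den]
    linear_combination (-1 : L) * e1 - s * (a ^ 3 - 1) * hs1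
  have hden : den a b s ≠ 0 := by
    intro h
    have h1 : s * (a ^ 3 - 1) = b ^ 3 - 1 := by
      have : 2 * (s * (a ^ 3 - 1) - (b ^ 3 - 1)) = 0 := by rw [← e2, h, mul_zero]
      have := (mul_eq_zero.1 this).resolve_left h2
      linear_combination this
    have h3 : s * (s - 1) * (a ^ 3 - 1) = 0 := by
      rw [den] at h
      linear_combination -h - h1
    rcases mul_eq_zero.1 h3 with h4 | h4
    · rcases mul_eq_zero.1 h4 with h5 | h5
      · apply hw1
        rw [h5, zero_mul] at hs1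
        linear_combination -hs1
      · apply hvw
        have : s = 1 := by linear_combination h5
        rw [this, one_mul] at hs1
        linear_combination hs1
    · exact hα h4
  have hvv : vv a b s = v := by
    rw [vv, vm]
    field_simp
    linear_combination -e2
  have hww : ww a b s = w := by
    have : vm a b s = v - 1 := by rw [← hvv, vv]; ring
    rw [ww, this]; linear_combination hs1
  refine ⟨hden, hvv, hww, ?_⟩
  have := vv_eqn hden
  rw [hvv, hv] at this
  have h5 : κ * (a ^ 3 - 1) = kap a b s * (a ^ 3 - 1) := by linear_combination this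
  exact (mul_right_cancel₀ hα h5).symm

end Formulas

section Orbit
variable {F : Type*} [Field F]

lemma onCurve {κ a v : F} (h : v ^ 2 = 1 + κ * (a ^ 3 - 1)) :
    (κ * v) ^ 2 = (κ * a) ^ 3 + κ ^ 2 * (1 - κ) := by
  linear_combination κ ^ 2 * h

lemma D_ne {κ : F} (h0 : κ ≠ 0) (h1 : κ ≠ 1) : κ ^ 2 * (1 - κ) ≠ 0 :=
  mul_ne_zero (pow_ne_zero 2 h0) (sub_ne_zero.2 h1.symm)

variable [DecidableEq F]

/-- chord construction in normalised coordinates -/
lemma chord_pt {κ a v a₀ v₀ a' v' : F} (hκ0 : κ ≠ 0)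
    (h : (crv (κ ^ 2 * (1 - κ))).Nonsingular (κ * a) (κ * v))
    (h₀ : (crv (κ ^ 2 * (1 - κ))).Nonsingular (κ * a₀) (κ * v₀))
    (hne : a ≠ a₀)
    (ha' : a' = ((v - v₀) / (a - a₀)) ^ 2 / κ - a - a₀)
    (hv' : v' = -((v - v₀) / (a - a₀) * (a' - a) + v)) :
    ∃ h' : (crv (κ ^ 2 * (1 - κ))).Nonsingular (κ * a') (κ * v'),
      Point.some _ _ h + Point.some _ _ h₀ = Point.some _ _ h' := by
  have hs : (κ * v - κ * v₀) / (κ * a - κ * a₀) = (v - v₀) / (a - a₀) := by
    rw [← mul_sub, ← mul_sub, mul_div_mul_left _ _ hκ0]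
  refine crv_add_chord h h₀ (fun hh => hne (mul_left_cancel₀ hκ0 hh)) (κ * a') (κ * v') ?_ ?_
  · rw [hs, ha']
    generalize (v - v₀) / (a - a₀) = m
    field_simp
  · rw [hs, hv']
    ring

/-- the orbit of the threefold map, in the group law -/
lemma orbit {κ : F} (hκ0 : κ ≠ 0)
    (a v b w : ℕ → F)
    (hA : ∀ n, (crv (κ ^ 2 * (1 - κ))).Nonsingular (κ * a n) (κ * v n))
    (hQ : ∀ n, (crv (κ ^ 2 * (1 - κ))).Nonsingular (κ * b n) (κ * w n))
    (h1 : (crv (κ ^ 2 * (1 - κ))).Nonsingular (κ * 1) (κ * 1))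
    (ha1 : ∀ n, a n ≠ 1) (hba : ∀ n, b n ≠ a n)
    (hsa : ∀ n, a (n + 1) = ((v n - 1) / (a n - 1)) ^ 2 / κ - a n - 1)
    (hsv : ∀ n, v (n + 1) = -((v n - 1) / (a n - 1) * (a (n + 1) - a n) + v n))
    (hsb : ∀ n, b (n + 1) = ((w n - v n) / (b n - a n)) ^ 2 / κ - b n - a n)
    (hsw : ∀ n, w (n + 1) = -((w n - v n) / (b n - a n) * (b (n + 1) - b n) + w n)) (n : ℕ) :
    Point.some _ _ (hA n) = Point.some _ _ (hA 0) + n • Point.some _ _ h1 ∧
    Point.some _ _ (hQ n) = Point.some _ _ (hQ 0) + n • Point.some _ _ (hA 0)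
      + (n.choose 2) • Point.some _ _ h1 := by
  have stepA : ∀ n, Point.some _ _ (hA (n + 1)) = Point.some _ _ (hA n) + Point.some _ _ h1 := by
    intro n
    obtain ⟨h', e⟩ := chord_pt hκ0 (hA n) h1 (ha1 n) (hsa n) (hsv n)
    exact e.symm
  have stepQ : ∀ n, Point.some _ _ (hQ (n + 1))
      = Point.some _ _ (hQ n) + Point.some _ _ (hA n) := by
    intro n
    obtain ⟨h', e⟩ := chord_pt hκ0 (hQ n) (hA n) (hba n) (hsb n) (hsw n)
    exact e.symm
  induction n with
  | zero => simp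
  | succ n ih =>
    obtain ⟨ih1, ih2⟩ := ih
    refine ⟨?_, ?_⟩
    · rw [stepA, ih1, succ_nsmul]; abel
    · rw [stepQ, ih2, ih1, Nat.choose_succ_succ' n 1, Nat.choose_one_right]
      simp only [add_nsmul, one_nsmul]
      abel

lemma second_difference {G : Type*} [AddCommGroup G] (Q₀ A₀ P : G) (m : ℕ) :
    (m ^ 2) • P = (Q₀ + (2 * m) • A₀ + ((2 * m).choose 2) • P) + Q₀
      + -((Q₀ + m • A₀ + (m.choose 2) • P) + (Q₀ + m • A₀ + (m.choose 2) • P)) := by
  have hc : (2 * m).choose 2 = m ^ 2 + 2 * m.choose 2 := by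
    rcases Nat.eq_zero_or_pos m with rfl | hm
    · rfl
    have e1 := Nat.choose_two_right (2 * m)
    have e2 := Nat.choose_two_right m
    have e3 := Nat.even_mul_pred_self m
    obtain ⟨k, hk⟩ := e3
    have e4 : m.choose 2 = k := by rw [e2, hk]; omega
    rw [e4, e1]
    obtain ⟨r, rfl⟩ : ∃ r, m = r + 1 := ⟨m - 1, by omega⟩
    simp only [Nat.add_sub_cancel] at hk
    have : 2 * (r + 1) * (2 * (r + 1) - 1) = 2 * ((r + 1) ^ 2 + 2 * k) := by
      have h5 : 2 * (r + 1) - 1 = 2 * r + 1 := by omega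
      rw [h5]; nlinarith
    rw [this]; simp
  rw [hc, add_nsmul, mul_nsmul', mul_nsmul', two_nsmul, two_nsmul]
  abel

end Orbit

section Height
variable {K : Type*} [Field K] {σ : Type*}

/-- coprime representation by forms of degree `e` -/
def Rep (g : FractionRing (MvPolynomial σ K)) (e : ℕ) : Prop :=
  ∃ p q : MvPolynomial σ K, IsRelPrime p q ∧ p.IsHomogeneous e ∧ q.IsHomogeneous e ∧ q ≠ 0 ∧
    g = algebraMap _ _ p / algebraMap _ _ q

lemma Rep.le_of_degLE {g : FractionRing (MvPolynomial σ K)} {e f : ℕ} (h : Rep g e)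
    (h' : DegLE g f) : e ≤ f := by
  obtain ⟨p, q, hpq, _, hq, hq0, hg⟩ := h
  obtain ⟨p', q', hq0', _, hd, hg'⟩ := h'
  have e1 : p * q' = p' * q := by
    apply IsFractionRing.injective (MvPolynomial σ K) (FractionRing (MvPolynomial σ K))
    rw [map_mul, map_mul]
    rw [hg, div_eq_div_iff (map_ne hq0) (map_ne hq0')] at hg'
    rw [hg']
  have e2 : q ∣ q' := by
    have : q ∣ p * q' := ⟨p', by rw [e1]; ring⟩
    exact hpq.symm.dvd_of_dvd_mul_left this
  obtain ⟨r, rfl⟩ := e2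
  have hr : r ≠ 0 := right_ne_zero_of_mul hq0'
  have := totalDegree_mul_of_isDomain hq0 hr
  rw [hq.totalDegree hq0] at this
  omega

lemma unit_degree {p : MvPolynomial σ K} {e : ℕ} (hu : IsUnit p) (hp : p.IsHomogeneous e) :
    e = 0 := by
  have h0 : p ≠ 0 := hu.ne_zero
  obtain ⟨r, hr⟩ := hu.exists_right_inv
  have hr0 : r ≠ 0 := by rintro rfl; simp at hr
  have := totalDegree_mul_of_isDomain h0 hr0
  rw [hr, totalDegree_one, hp.totalDegree h0] at this
  omega

/-- the duplication map on the invariant `x ^ 3 / D` multiplies degrees by four -/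
lemma Rep.dup (h2 : (2 : K) ≠ 0) (h3 : (3 : K) ≠ 0) {g : FractionRing (MvPolynomial σ K)} {e : ℕ}
    (he : 0 < e) (h : Rep g e) :
    g + 1 ≠ 0 ∧ Rep (g * (g - 8) ^ 3 / (64 * (g + 1) ^ 3)) (4 * e) := by
  obtain ⟨p, q, hpq, hp, hq, hq0, hg⟩ := h
  have hpq0 : p + q ≠ 0 := by
    intro hh
    have : p = -q := by linear_combination hh
    rw [this] at hpq
    have hu : IsUnit q := hpq (dvd_neg.2 dvd_rfl) dvd_rfl
    have := unit_degree hu hq
    omega
  have hC : ∀ c : K, c ≠ 0 → IsUnit (C c : MvPolynomial σ K) := fun c hc =>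
    (isUnit_iff_ne_zero.2 hc).map C
  have h64 : (64 : K) ≠ 0 := by
    have : (64 : K) = 2 ^ 6 := by norm_num
    rw [this]; exact pow_ne_zero _ h2
  have h9 : (9 : K) ≠ 0 := by
    have : (9 : K) = 3 ^ 2 := by norm_num
    rw [this]; exact pow_ne_zero _ h3
  have hg1 : g + 1 = algebraMap _ _ (p + q) / algebraMap _ _ q := by
    rw [hg, map_add, add_div, div_self (map_ne hq0)]
  refine ⟨?_, ?_⟩
  · rw [hg1]; exact div_ne_zero (map_ne hpq0) (map_ne hq0)
  · refine ⟨p * (p - C 8 * q) ^ 3, C 64 * (q * (p + q) ^ 3), ?_, ?_, ?_, ?_, ?_⟩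
    · -- coprimality
      have c1 : IsRelPrime p (p + q) := by
        intro d hd1 hd2
        exact hpq hd1 ((dvd_add_right hd1).1 hd2)
      have c2 : IsRelPrime (p - C 8 * q) q := by
        intro d hd1 hd2
        refine hpq ?_ hd2
        have : p = (p - C 8 * q) + C 8 * q := by ring
        rw [this]; exact dvd_add hd1 (Dvd.dvd.mul_left hd2 _)
      have c3 : IsRelPrime (p - C 8 * q) (p + q) := by
        intro d hd1 hd2
        have h9q : d ∣ C 9 * q := by
          have : C 9 * q = (p + q) - (p - C 8 * q) := by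
            have : (C 9 : MvPolynomial σ K) = C 8 + 1 := by
              rw [← C_1, ← C_add]; norm_num
            rw [this]; ring
          rw [this]; exact dvd_sub hd2 hd1
        have hdq : d ∣ q := ((hC 9 h9).dvd_mul_left).1 h9q
        have hdp : d ∣ p := by
          have : p = (p + q) - q := by ring
          rw [this]; exact dvd_sub hd2 hdq
        exact hpq hdp hdq
      have c4 : IsRelPrime (p * (p - C 8 * q) ^ 3) (q * (p + q) ^ 3) := by
        refine IsRelPrime.mul_left ?_ ?_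
        · exact IsRelPrime.mul_right hpq c1.pow_right
        · exact IsRelPrime.mul_right c2.pow_left c3.pow
      intro d hd1 hd2
      exact c4 hd1 (((hC 64 h64).dvd_mul_left).1 hd2)
    · have h8 : (p - C 8 * q).IsHomogeneous e := by
        have := (isHomogeneous_C σ (8 : K)).mul hq
        rw [zero_add] at this
        exact hp.sub this
      have := hp.mul (h8.pow 3)
      convert this using 1; ring
    · have := (isHomogeneous_C σ (64 : K)).mul (hq.mul ((hp.add hq).pow 3))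
      convert this using 1; ring
    · exact mul_ne_zero (hC 64 h64).ne_zero (mul_ne_zero hq0 (pow_ne_zero 3 hpq0))
    · rw [hg1, hg]
      have c8 : algebraMap (MvPolynomial σ K) (FractionRing (MvPolynomial σ K)) (C 8) = 8 := by
        have : (C 8 : MvPolynomial σ K) = ((8 : ℕ) : MvPolynomial σ K) :=
          map_natCast (C : K →+* MvPolynomial σ K) 8
        rw [this, map_natCast]; rfl
      have c64 : algebraMap (MvPolynomial σ K) (FractionRing (MvPolynomial σ K)) (C 64) = 64 := by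
        have : (C 64 : MvPolynomial σ K) = ((64 : ℕ) : MvPolynomial σ K) :=
          map_natCast (C : K →+* MvPolynomial σ K) 64
        rw [this, map_natCast]; rfl
      have hq0' := map_ne hq0
      have hpq0' := map_ne hpq0
      have h64' : (64 : FractionRing (MvPolynomial σ K)) ≠ 0 := by
        rw [← c64]; exact map_ne (hC 64 h64).ne_zero
      simp only [map_mul, map_pow, map_sub, c8, c64]
      generalize algebraMap (MvPolynomial σ K) (FractionRing (MvPolynomial σ K)) q = q' at *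
      generalize algebraMap (MvPolynomial σ K) (FractionRing (MvPolynomial σ K)) p = p' at *
      generalize algebraMap (MvPolynomial σ K) (FractionRing (MvPolynomial σ K)) (p + q) = r' at *
      field_simp

lemma dup_point {L : Type*} [Field L] [DecidableEq L] (h2 : (2 : L) ≠ 0) {D x y : L} (hD : D ≠ 0)
    (h : (crv D).Nonsingular x y) (hx : x ^ 3 / D + 1 ≠ 0) :
    ∃ x' y' h', Point.some x y h + Point.some x y h = (Point.some x' y' h' : (crv D).Point) ∧
      x' ^ 3 / D = (x ^ 3 / D) * (x ^ 3 / D - 8) ^ 3 / (64 * (x ^ 3 / D + 1) ^ 3) := by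
  have heq : y ^ 2 = x ^ 3 + D := crv_eqn.1 h.1
  have hy : y ≠ 0 := by
    rintro rfl
    apply hx
    have : x ^ 3 = -D := by linear_combination -heq
    rw [this, neg_div, div_self hD]; ring
  obtain ⟨h', e⟩ := crv_double h2 h hy
  refine ⟨_, _, h', e, ?_⟩
  have hy2 : x ^ 3 + D ≠ 0 := by rw [← heq]; exact pow_ne_zero 2 hy
  have e1 : (3 * x ^ 2 / (2 * y)) ^ 2 = 9 * x ^ 4 / (4 * (x ^ 3 + D)) := by
    rw [div_pow, mul_pow, mul_pow, heq]; ring_nf
  have h4 : (4 : L) ≠ 0 := by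
    have : (4 : L) = 2 * 2 := by norm_num
    rw [this]; exact mul_ne_zero h2 h2
  have e2 : (3 * x ^ 2 / (2 * y)) ^ 2 - x - x = x * (x ^ 3 - 8 * D) / (4 * (x ^ 3 + D)) := by
    rw [e1]; field_simp; ring
  have h64 : (64 : L) ≠ 0 := by
    have : (64 : L) = 4 ^ 3 := by norm_num
    rw [this]; exact pow_ne_zero 3 h4
  have e3 : x ^ 3 / D + 1 = (x ^ 3 + D) / D := by field_simp
  rw [e2, e3]
  have e4 : (x ^ 3 / D - 8) = (x ^ 3 - 8 * D) / D := by field_simp
  rw [e4]
  generalize x ^ 3 + D = r at *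
  have e5 : (4 * r) ^ 3 = 64 * r ^ 3 := by ring
  rw [div_pow, e5, mul_pow]
  field_simp

end Height

section PtDeg
variable {K : Type*} [Field K] {σ : Type*}

/-- both coordinates have degree at most `e` -/
def PtLE {D : FractionRing (MvPolynomial σ K)} (P : (crv D).Point) (e : ℕ) : Prop :=
  ∀ x y h, P = Point.some x y h → DegLE x e ∧ DegLE y e

lemma PtLE.mono {D : FractionRing (MvPolynomial σ K)} {P : (crv D).Point} {e f : ℕ}
    (h : PtLE P e) (hef : e ≤ f) : PtLE P f := fun x y h' hP =>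
  ⟨(h x y h' hP).1.mono hef, (h x y h' hP).2.mono hef⟩

lemma PtLE.neg {D : FractionRing (MvPolynomial σ K)} {P : (crv D).Point} {e : ℕ}
    (hP : PtLE P e) : PtLE (-P) e := by
  intro x y h e'
  have e'' : P = Point.some x (-y) (by
      have := (nonsingular_neg (W' := crv D) x y).2 h
      simpa [negY, crv] using this) := by
    rw [← neg_neg P, e', Point.neg_some]
    simp [negY, crv]
  have := hP _ _ _ e''
  exact ⟨this.1, by simpa using this.2.neg⟩

variable [DecidableEq (FractionRing (MvPolynomial σ K))]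

lemma PtLE.add {D : FractionRing (MvPolynomial σ K)} {P Q : (crv D).Point} {e f : ℕ}
    (hP : PtLE P e) (hQ : PtLE Q f) : PtLE (P + Q) (12 * (e + f)) := by
  intro x y h hh
  rcases crv_add_cases P Q hh with ⟨_, hQ'⟩ | ⟨_, hP'⟩ |
    ⟨x₁, y₁, h₁, x₂, y₂, h₂, rfl, rfl, m, hm, hx, hy⟩
  · exact ⟨(hQ _ _ _ hQ').1.mono (by omega), (hQ _ _ _ hQ').2.mono (by omega)⟩
  · exact ⟨(hP _ _ _ hP').1.mono (by omega), (hP _ _ _ hP').2.mono (by omega)⟩
  · obtain ⟨a1, b1⟩ := hP _ _ _ rfl
    obtain ⟨a2, b2⟩ := hQ _ _ _ rfl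
    have hmd : DegLE m (3 * (e + f)) := by
      rcases hm with rfl | rfl | rfl
      · exact DegLE.zero _
      · exact (((DegLE.three 0).mul (a1.pow 2)).div ((DegLE.two 0).mul b1)).mono (by omega)
      · exact ((b1.sub b2).div (a1.sub a2)).mono (by omega)
    have hxd : DegLE x (7 * (e + f)) := by
      rw [hx]; exact (((hmd.pow 2).sub a1).sub a2).mono (by omega)
    refine ⟨hxd.mono (by omega), ?_⟩
    rw [hy]
    exact ((hmd.mul (hxd.sub a1)).add b1).neg.mono (by omega)

lemma PtLE.nsmul {D : FractionRing (MvPolynomial σ K)} {P : (crv D).Point} {e : ℕ}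
    (hP : PtLE P e) (n : ℕ) : PtLE (n • P) (e * n ^ 9) := by
  induction n using Nat.strong_induction_on with
  | _ n ih =>
    rcases Nat.eq_zero_or_pos n with rfl | hn
    · intro x y h hh
      rw [zero_nsmul] at hh
      exact absurd hh.symm (Point.some_ne_zero _)
    rcases Nat.even_or_odd' n with ⟨m, rfl | rfl⟩
    · have hm : 0 < m := by omega
      have h1 := ih m (by omega)
      have h2 : (2 * m) • P = m • P + m • P := by rw [mul_nsmul', two_nsmul]
      rw [h2]
      refine (h1.add h1).mono ?_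
      have : (2 * m) ^ 9 = 512 * m ^ 9 := by ring
      rw [this]
      nlinarith [Nat.zero_le (e * m ^ 9)]
    · rcases Nat.eq_zero_or_pos m with rfl | hm
      · simpa using hP
      have h1 := ih m (by omega)
      have h2 : (2 * m + 1) • P = (m • P + m • P) + P := by
        rw [add_nsmul, mul_nsmul', two_nsmul, one_nsmul]
      rw [h2]
      refine ((h1.add h1).add hP).mono ?_
      have h3 : 512 * m ^ 9 ≤ (2 * m + 1) ^ 9 := by
        calc 512 * m ^ 9 = (2 * m) ^ 9 := by ring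
          _ ≤ (2 * m + 1) ^ 9 := Nat.pow_le_pow_left (by omega) 9
      have h4 : 1 ≤ m ^ 9 := Nat.one_le_pow _ _ hm
      calc 12 * (12 * (e * m ^ 9 + e * m ^ 9) + e)
          ≤ 12 * (12 * (e * m ^ 9 + e * m ^ 9) + e * m ^ 9) := by
            have : e ≤ e * m ^ 9 := Nat.le_mul_of_pos_right e h4
            omega
        _ = 300 * (e * m ^ 9) := by ring
        _ ≤ 512 * (e * m ^ 9) := by omega
        _ = e * (512 * m ^ 9) := by ring
        _ ≤ e * (2 * m + 1) ^ 9 := Nat.mul_le_mul_left e h3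

lemma two_pow_rep (h2 : (2 : K) ≠ 0) (h3 : (3 : K) ≠ 0)
    {D x₁ y₁ : FractionRing (MvPolynomial σ K)} (hD : D ≠ 0)
    (h₁ : (crv D).Nonsingular x₁ y₁) {e : ℕ} (he : 0 < e) (hr : Rep (x₁ ^ 3 / D) e) (i : ℕ) :
    ∃ x y h, (2 ^ i) • (Point.some x₁ y₁ h₁ : (crv D).Point) = Point.some x y h ∧
      Rep (x ^ 3 / D) (4 ^ i * e) := by
  induction i with
  | zero => exact ⟨x₁, y₁, h₁, by simp, by simpa using hr⟩
  | succ i ih =>
    obtain ⟨x, y, h, hh, hrep⟩ := ih
    have hpos : 0 < 4 ^ i * e := by positivity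
    obtain ⟨hne, hrep'⟩ := hrep.dup h2 h3 hpos
    have h2' : (2 : FractionRing (MvPolynomial σ K)) ≠ 0 := by
      have : algebraMap K (FractionRing (MvPolynomial σ K)) 2 ≠ 0 := by
        simpa using h2
      rwa [map_ofNat] at this
    obtain ⟨x', y', h', e1, e2⟩ := dup_point h2' hD h hne
    refine ⟨x', y', h', ?_, ?_⟩
    · have : (2 ^ (i + 1)) • (Point.some x₁ y₁ h₁ : (crv D).Point)
          = (2 ^ i) • Point.some x₁ y₁ h₁ + (2 ^ i) • Point.some x₁ y₁ h₁ := by
        rw [pow_succ', mul_nsmul', two_nsmul]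
      rw [this, hh, e1]
    · rw [e2]
      have : 4 ^ (i + 1) * e = 4 * (4 ^ i * e) := by ring
      rw [this]; exact hrep'

end PtDeg

section Tuples
variable {K : Type*} [Field K] {N : ℕ}

lemma extract_reduced (H : Fin (N + 1) → MvPolynomial (Fin (N + 1)) K) (d : ℕ)
    (hH : ∀ i, (H i).IsHomogeneous d) (i₀ : Fin (N + 1)) (hi₀ : H i₀ ≠ 0) :
    ∃ (c : MvPolynomial (Fin (N + 1)) K) (F : Fin (N + 1) → MvPolynomial (Fin (N + 1)) K) (e : ℕ),
      c ≠ 0 ∧ (∀ i, H i = c * F i) ∧ IsReduced F e := by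
  obtain ⟨c, F, h1, h2⟩ := extract H
  have hc : c ≠ 0 := by
    rintro rfl
    exact hi₀ (by rw [h1 i₀, zero_mul])
  have h0 := hH i₀
  rw [h1 i₀] at h0
  obtain ⟨i, j, hij, hci, hFj⟩ := homog_of_mul h0 (by rw [← h1 i₀]; exact hi₀)
  refine ⟨c, F, j, hc, h1, ⟨fun k => ?_, h2⟩⟩
  by_cases hk : H k = 0
  · have : F k = 0 := by
      rw [h1 k] at hk
      exact (mul_eq_zero.1 hk).resolve_left hc
    rw [this]; exact isHomogeneous_zero _ _ _
  · have h3 := hH k
    rw [h1 k] at h3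
    obtain ⟨i', j', hij', hci', hFj'⟩ := homog_of_mul h3 (by rw [← h1 k]; exact hk)
    have : i' = i := hci'.inj_right hci hc
    have : j' = j := by omega
    rw [← this]; exact hFj'

lemma tuple_of_homFrac {g₁ g₂ g₃ : FractionRing (MvPolynomial (Fin 4) K)}
    (h₁ : HomFrac g₁) (h₂ : HomFrac g₂) (h₃ : HomFrac g₃) :
    ∃ (F : Fin 4 → MvPolynomial (Fin 4) K) (d : ℕ), IsReduced F d ∧ F 0 ≠ 0 ∧
      g₁ = algebraMap _ _ (F 1) / algebraMap _ _ (F 0) ∧
      g₂ = algebraMap _ _ (F 2) / algebraMap _ _ (F 0) ∧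
      g₃ = algebraMap _ _ (F 3) / algebraMap _ _ (F 0) := by
  obtain ⟨d₁, p₁, q₁, hq₁, a₁, b₁, e₁⟩ := h₁
  obtain ⟨d₂, p₂, q₂, hq₂, a₂, b₂, e₂⟩ := h₂
  obtain ⟨d₃, p₃, q₃, hq₃, a₃, b₃, e₃⟩ := h₃
  have H0 : ∀ i : Fin 4, ((![q₁ * q₂ * q₃, p₁ * q₂ * q₃, q₁ * p₂ * q₃, q₁ * q₂ * p₃] :
      Fin 4 → MvPolynomial (Fin 4) K) i).IsHomogeneous (d₁ + d₂ + d₃) := by
    intro i
    fin_cases i
    · exact (b₁.mul b₂).mul b₃
    · exact (a₁.mul b₂).mul b₃
    · exact (b₁.mul a₂).mul b₃
    · exact (b₁.mul b₂).mul a₃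
  have hne : q₁ * q₂ * q₃ ≠ 0 := mul_ne_zero (mul_ne_zero hq₁ hq₂) hq₃
  obtain ⟨c, F, e, hc, hF, hred⟩ := extract_reduced (N := 3) _ _ H0 0 hne
  have f0 : q₁ * q₂ * q₃ = c * F 0 := hF 0
  have f1 : p₁ * q₂ * q₃ = c * F 1 := hF 1
  have f2 : q₁ * p₂ * q₃ = c * F 2 := hF 2
  have f3 : q₁ * q₂ * p₃ = c * F 3 := hF 3
  have hF0 : F 0 ≠ 0 := by
    intro h; rw [h, mul_zero] at f0; exact hne f0
  have key : ∀ (p q r s t : MvPolynomial (Fin 4) K), q ≠ 0 → t ≠ 0 → r ≠ 0 → q * r = c * t →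
      p * r = c * s → algebraMap (MvPolynomial (Fin 4) K)
        (FractionRing (MvPolynomial (Fin 4) K)) p / algebraMap _ _ q
        = algebraMap _ _ s / algebraMap _ _ t := by
    intro p q r s t hq ht hr hqr hpr
    rw [div_eq_div_iff (map_ne hq) (map_ne ht), ← map_mul, ← map_mul]
    congr 1
    apply mul_left_cancel₀ (mul_ne_zero hc hr)
    linear_combination (-(p * r) : MvPolynomial (Fin 4) K) * hqr + r * q * hpr
  refine ⟨F, e, hred, hF0, ?_, ?_, ?_⟩
  · rw [e₁]
    exact key p₁ q₁ (q₂ * q₃) (F 1) (F 0) hq₁ hF0 (mul_ne_zero hq₂ hq₃)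
      (by rw [← f0]; ring) (by rw [← f1]; ring)
  · rw [e₂]
    exact key p₂ q₂ (q₁ * q₃) (F 2) (F 0) hq₂ hF0 (mul_ne_zero hq₁ hq₃)
      (by rw [← f0]; ring) (by rw [← f2]; ring)
  · rw [e₃]
    exact key p₃ q₃ (q₁ * q₂) (F 3) (F 0) hq₃ hF0 (mul_ne_zero hq₁ hq₂)
      (by rw [← f0]; ring) (by rw [← f3]; ring)

/-- a reduced tuple has degree at most three times the degree of its affine coordinates -/
lemma reduced_degree_le {G : Fin 4 → MvPolynomial (Fin 4) K} {D e : ℕ} (hG : IsReduced G D)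
    (hG0 : G 0 ≠ 0)
    (h₁ : DegLE (algebraMap _ (FractionRing (MvPolynomial (Fin 4) K)) (G 1)
      / algebraMap _ _ (G 0)) e)
    (h₂ : DegLE (algebraMap _ (FractionRing (MvPolynomial (Fin 4) K)) (G 2)
      / algebraMap _ _ (G 0)) e)
    (h₃ : DegLE (algebraMap _ (FractionRing (MvPolynomial (Fin 4) K)) (G 3)
      / algebraMap _ _ (G 0)) e) : D ≤ 3 * e := by
  obtain ⟨p₁, q₁, hq₁, a₁, b₁, e₁⟩ := h₁
  obtain ⟨p₂, q₂, hq₂, a₂, b₂, e₂⟩ := h₂
  obtain ⟨p₃, q₃, hq₃, a₃, b₃, e₃⟩ := h₃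
  have key : ∀ (p q s : MvPolynomial (Fin 4) K), q ≠ 0 →
      algebraMap (MvPolynomial (Fin 4) K)
        (FractionRing (MvPolynomial (Fin 4) K)) s / algebraMap _ _ (G 0)
        = algebraMap _ _ p / algebraMap _ _ q → s * q = p * G 0 := by
    intro p q s hq h
    rw [div_eq_div_iff (map_ne hG0) (map_ne hq), ← map_mul, ← map_mul] at h
    exact IsFractionRing.injective _ _ h
  have k1 := key _ _ _ hq₁ e₁
  have k2 := key _ _ _ hq₂ e₂
  have k3 := key _ _ _ hq₃ e₃
  -- `G 0` divides `q₁ q₂ q₃`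
  have hdvd : G 0 ∣ q₁ * q₂ * q₃ := by
    classical
    have : NormalizedGCDMonoid (MvPolynomial (Fin 4) K) := Classical.choice inferInstance
    have hall : ∀ i : Fin 4, G 0 ∣ (q₁ * q₂ * q₃) * G i := by
      intro i
      fin_cases i
      · exact Dvd.intro_left _ rfl
      · exact ⟨p₁ * q₂ * q₃, by
          show (q₁ * q₂ * q₃) * G 1 = _
          linear_combination (q₂ * q₃) * k1⟩
      · exact ⟨q₁ * p₂ * q₃, by
          show (q₁ * q₂ * q₃) * G 2 = _
          linear_combination (q₁ * q₃) * k2⟩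
      · exact ⟨q₁ * q₂ * p₃, by
          show (q₁ * q₂ * q₃) * G 3 = _
          linear_combination (q₁ * q₂) * k3⟩
    have h1 : G 0 ∣ Finset.univ.gcd (fun i => (q₁ * q₂ * q₃) * G i) :=
      Finset.dvd_gcd (fun i _ => hall i)
    have h2 : IsUnit (Finset.univ.gcd G) :=
      hG.coprime _ (fun i => Finset.gcd_dvd (Finset.mem_univ i))
    have h3 : G 0 ∣ q₁ * q₂ * q₃ * Finset.univ.gcd G :=
      h1.trans (Finset.gcd_mul_left' Finset.univ G (q₁ * q₂ * q₃)).dvd
    exact (h2.dvd_mul_right).1 h3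
  obtain ⟨r, hr⟩ := hdvd
  have hne : q₁ * q₂ * q₃ ≠ 0 := mul_ne_zero (mul_ne_zero hq₁ hq₂) hq₃
  have hr0 : r ≠ 0 := by rintro rfl; rw [mul_zero] at hr; exact hne hr
  have h5 := totalDegree_mul_of_isDomain hG0 hr0
  rw [← hr, (hG.homogeneous 0).totalDegree hG0] at h5
  have h6 := (totalDegree_mul (q₁ * q₂) q₃)
  have h7 := (totalDegree_mul q₁ q₂)
  omega

lemma iter_homog {F : Fin (N + 1) → MvPolynomial (Fin (N + 1)) K} {d : ℕ}
    (hF : ∀ i, (F i).IsHomogeneous d) (n : ℕ) (i : Fin (N + 1)) :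
    (iter F n i).IsHomogeneous (d ^ n) := by
  induction n generalizing i with
  | zero => simpa [iter] using isHomogeneous_X K i
  | succ n ih =>
    have := (ih i).aeval F hF
    rw [pow_succ']; exact this

end Tuples

section MapExists
variable {K : Type*} [Field K]

/-- the homogeneous coordinates as elements of the function field -/
noncomputable def xx (K : Type*) [Field K] (i : Fin 4) : FractionRing (MvPolynomial (Fin 4) K) :=
  algebraMap (MvPolynomial (Fin 4) K) (FractionRing (MvPolynomial (Fin 4) K)) (X i)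

lemma xx_ne (i : Fin 4) : xx K i ≠ 0 := map_ne (X_ne_zero i)

lemma ne_of_eval {y : Fin 4 → FractionRing (MvPolynomial (Fin 4) K)}
    (hy : AlgebraicIndependent K y) (P : MvPolynomial (Fin 4) K) (pt : Fin 4 → K)
    (h : eval pt P ≠ 0) : aeval y P ≠ 0 := by
  intro h0
  have : P = 0 := by
    apply hy
    rw [map_zero]; exact h0
  rw [this, map_zero] at h
  exact h rfl

lemma ind0 : AlgebraicIndependent K
    ![xx K 0, xx K 1 / xx K 0, xx K 2 / xx K 0, xx K 3 / xx K 0] := by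
  apply algInd_of_mem
  set y : Fin 4 → FractionRing (MvPolynomial (Fin 4) K) :=
    ![xx K 0, xx K 1 / xx K 0, xx K 2 / xx K 0, xx K 3 / xx K 0] with hy
  have h0 : xx K 0 ∈ algSub (K := K) y := mem_algSub_self y 0
  have h1 : xx K 1 / xx K 0 ∈ algSub (K := K) y := mem_algSub_self y 1
  have h2 : xx K 2 / xx K 0 ∈ algSub (K := K) y := mem_algSub_self y 2
  have h3 : xx K 3 / xx K 0 ∈ algSub (K := K) y := mem_algSub_self y 3
  have key : ∀ j, xx K j / xx K 0 ∈ algSub (K := K) y → xx K j ∈ algSub (K := K) y := by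
    intro j hj
    have := mul_mem hj h0
    rwa [div_mul_cancel₀ _ (xx_ne 0)] at this
  intro i
  fin_cases i
  · exact h0
  · exact key 1 h1
  · exact key 2 h2
  · exact key 3 h3

lemma two_ne (h2 : (2 : K) ≠ 0) : (2 : FractionRing (MvPolynomial (Fin 4) K)) ≠ 0 := by
  have : algebraMap K (FractionRing (MvPolynomial (Fin 4) K)) 2 ≠ 0 := by simpa using h2
  rwa [map_ofNat] at this

lemma three_ne (h3 : (3 : K) ≠ 0) : (3 : FractionRing (MvPolynomial (Fin 4) K)) ≠ 0 := by
  have : algebraMap K (FractionRing (MvPolynomial (Fin 4) K)) 3 ≠ 0 := by simpa using h3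
  rwa [map_ofNat] at this

/-- basic nonvanishing facts for the generic point -/
lemma generic_facts (h2 : (2 : K) ≠ 0) {a b s : FractionRing (MvPolynomial (Fin 4) K)}
    (ha : a = xx K 1 / xx K 0) (hb : b = xx K 2 / xx K 0) (hs : s = xx K 3 / xx K 0) :
    den a b s ≠ 0 ∧ a ≠ 1 ∧ b ≠ a ∧ vm a b s ≠ 0 ∧ kap a b s ≠ 0 ∧ kap a b s ≠ 1 := by
  have hy := ind0 (K := K)
  rw [← ha, ← hb, ← hs] at hy
  have e1 : den a b s ≠ 0 := by
    have := ne_of_eval hy ((X 2 ^ 3 - 1) - X 3 ^ 2 * (X 1 ^ 3 - 1)) ![0, 1, 0, 0] (by simp)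
    simpa [den] using this
  have e2 : a - 1 ≠ 0 := by
    have := ne_of_eval hy (X 1 - 1) ![0, 0, 0, 0] (by simp)
    simpa using this
  have e3 : b - a ≠ 0 := by
    have := ne_of_eval hy (X 2 - X 1) ![0, 0, 1, 0] (by simp)
    simpa using this
  have e4 : s * (a ^ 3 - 1) - (b ^ 3 - 1) ≠ 0 := by
    have := ne_of_eval hy (X 3 * (X 1 ^ 3 - 1) - (X 2 ^ 3 - 1)) ![0, 0, 0, 0] (by simp)
    simpa using this
  have e5 : s ≠ 0 := by
    have := ne_of_eval hy (X 3) ![0, 0, 0, 1] (by simp)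
    simpa using this
  have e6 : 1 - s ≠ 0 := by
    have := ne_of_eval hy (1 - X 3) ![0, 0, 0, 0] (by simp)
    simpa using this
  have e7 : 4 * s * (1 - s) * (s * (a ^ 3 - 1) - (b ^ 3 - 1)) - (den a b s) ^ 2 ≠ 0 := by
    have := ne_of_eval hy (4 * X 3 * (1 - X 3) * (X 3 * (X 1 ^ 3 - 1) - (X 2 ^ 3 - 1))
      - ((X 2 ^ 3 - 1) - X 3 ^ 2 * (X 1 ^ 3 - 1)) ^ 2) ![0, 0, 0, 0] (by simp)
    simpa [den] using this
  have h4 : (4 : FractionRing (MvPolynomial (Fin 4) K)) ≠ 0 := by
    have : (4 : FractionRing (MvPolynomial (Fin 4) K)) = 2 * 2 := by norm_num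
    rw [this]; exact mul_ne_zero (two_ne h2) (two_ne h2)
  refine ⟨e1, sub_ne_zero.1 e2, sub_ne_zero.1 e3, ?_, ?_, ?_⟩
  · exact div_ne_zero (mul_ne_zero (two_ne h2) e4) e1
  · exact div_ne_zero (mul_ne_zero (mul_ne_zero (mul_ne_zero h4 e5) e6) e4) (pow_ne_zero 2 e1)
  · intro h
    rw [kap, div_eq_one_iff_eq (pow_ne_zero 2 e1)] at h
    exact e7 (sub_eq_zero.2 h)

end MapExists

section Back
variable {L : Type*} [Field L] [DecidableEq L]

omit [DecidableEq L] in
lemma pt_in {M : Subfield L} {κ a v : L} (hκ : κ ∈ M) (ha : a ∈ M) (hv : v ∈ M)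
    (h : (crv (κ ^ 2 * (1 - κ))).Nonsingular (κ * a) (κ * v)) :
    PtIn M (Point.some _ _ h) := by
  intro x y h' e
  simp only [Point.some.injEq] at e
  rw [← e.1, ← e.2]
  exact ⟨mul_mem hκ ha, mul_mem hκ hv⟩

omit [DecidableEq L] in
lemma of_pt_in {M : Subfield L} {κ a v : L} (hκ0 : κ ≠ 0) (hκ : κ ∈ M)
    (h : (crv (κ ^ 2 * (1 - κ))).Nonsingular (κ * a) (κ * v))
    (hP : PtIn M (Point.some _ _ h)) : a ∈ M ∧ v ∈ M := by
  obtain ⟨h1, h2⟩ := hP _ _ h rfl
  refine ⟨?_, ?_⟩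
  · have := div_mem h1 hκ
    rwa [mul_div_cancel_left₀ _ hκ0] at this
  · have := div_mem h2 hκ
    rwa [mul_div_cancel_left₀ _ hκ0] at this

/-- the old point lies in any subfield containing the new one -/
lemma back {M : Subfield L} {κ a v b w a' v' b' w' : L} (hκ0 : κ ≠ 0) (hκ : κ ∈ M)
    (ha' : a' ∈ M) (hv' : v' ∈ M) (hb' : b' ∈ M) (hw' : w' ∈ M)
    (h1 : (crv (κ ^ 2 * (1 - κ))).Nonsingular (κ * 1) (κ * 1))
    (hA : (crv (κ ^ 2 * (1 - κ))).Nonsingular (κ * a) (κ * v))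
    (hQ : (crv (κ ^ 2 * (1 - κ))).Nonsingular (κ * b) (κ * w))
    (hA' : (crv (κ ^ 2 * (1 - κ))).Nonsingular (κ * a') (κ * v'))
    (hQ' : (crv (κ ^ 2 * (1 - κ))).Nonsingular (κ * b') (κ * w'))
    (eA : Point.some _ _ hA + Point.some _ _ h1 = Point.some _ _ hA')
    (eQ : Point.some _ _ hQ + Point.some _ _ hA = Point.some _ _ hQ') :
    a ∈ M ∧ v ∈ M ∧ b ∈ M ∧ w ∈ M := by
  have p1 : PtIn M (Point.some _ _ h1) := pt_in hκ (one_mem M) (one_mem M) h1
  have pA' : PtIn M (Point.some _ _ hA') := pt_in hκ ha' hv' hA'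
  have pQ' : PtIn M (Point.some _ _ hQ') := pt_in hκ hb' hw' hQ'
  have pA : PtIn M (Point.some _ _ hA) := by
    have e : Point.some _ _ hA = Point.some _ _ hA' + -Point.some _ _ h1 := by
      rw [← eA, add_neg_cancel_right]
    rw [e]; exact pA'.add p1.neg
  have pQ : PtIn M (Point.some _ _ hQ) := by
    have e : Point.some _ _ hQ = Point.some _ _ hQ' + -Point.some _ _ hA := by
      rw [← eQ, add_neg_cancel_right]
    rw [e]; exact pQ'.add pA.neg
  obtain ⟨q1, q2⟩ := of_pt_in hκ0 hκ hA pA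
  obtain ⟨q3, q4⟩ := of_pt_in hκ0 hκ hQ pQ
  exact ⟨q1, q2, q3, q4⟩

end Back

section Main
variable {K : Type*} [Field K]

lemma homog_scale {p : MvPolynomial (Fin 4) K} {d : ℕ} (hp : p.IsHomogeneous d) :
    algebraMap (MvPolynomial (Fin 4) K) (FractionRing (MvPolynomial (Fin 4) K)) p
      = xx K 0 ^ d * aeval (fun i => xx K i / xx K 0) p := by
  have h0 : algebraMap (MvPolynomial (Fin 4) K) (FractionRing (MvPolynomial (Fin 4) K)) p
      = aeval (fun i => xx K i) p := by
    have : (IsScalarTower.toAlgHom K (MvPolynomial (Fin 4) K)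
        (FractionRing (MvPolynomial (Fin 4) K))) = aeval (fun i => xx K i) := by
      apply MvPolynomial.algHom_ext
      intro i; simp [xx]
    exact DFunLike.congr_fun this p
  rw [h0, aeval_def, aeval_def, eval₂_eq, eval₂_eq, Finset.mul_sum]
  refine Finset.sum_congr rfl fun m hm => ?_
  have hd : ∑ i ∈ m.support, m i = d := by
    by_contra hne
    have := hp.coeff_eq_zero (d := m) (fun h => hne (by rw [← h]; rfl))
    exact (mem_support_iff.1 hm) this
  simp only [div_pow, Finset.prod_div_distrib]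
  rw [Finset.prod_pow_eq_pow_sum, hd]
  have : xx K 0 ^ d ≠ 0 := pow_ne_zero _ (xx_ne 0)
  field_simp

/-- the rational map and its basic properties -/
lemma exists_map (h2 : (2 : K) ≠ 0) (h3 : (3 : K) ≠ 0)
    {a b s : FractionRing (MvPolynomial (Fin 4) K)}
    (ha : a = xx K 1 / xx K 0) (hb : b = xx K 2 / xx K 0) (hs : s = xx K 3 / xx K 0) :
    ∃ (F : Fin 4 → MvPolynomial (Fin 4) K) (d : ℕ)
      (Φ : FractionRing (MvPolynomial (Fin 4) K) →ₐ[K] FractionRing (MvPolynomial (Fin 4) K)),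
      IsReduced F d ∧ IsDominant F ∧
      (∀ p : MvPolynomial (Fin 4) K, Φ (algebraMap _ _ p) = algebraMap _ _ (aeval F p)) ∧
      Φ (kap a b s) = kap a b s ∧
      Φ a = ((vv a b s - 1) / (a - 1)) ^ 2 / kap a b s - a - 1 ∧
      Φ (vv a b s) = -((vv a b s - 1) / (a - 1) * (Φ a - a) + vv a b s) ∧
      Φ b = ((ww a b s - vv a b s) / (b - a)) ^ 2 / kap a b s - b - a ∧
      Φ (ww a b s) = -((ww a b s - vv a b s) / (b - a) * (Φ b - b) + ww a b s) ∧
      (∃ e, 0 < e ∧ Rep (kap a b s / (1 - kap a b s)) e) ∧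
      (∀ c : K, a ≠ algebraMap K _ c) := by
  classical
  obtain ⟨hden, ha1, hba, hvm, hκ0, hκ1⟩ := generic_facts h2 ha hb hs
  have h2L := two_ne h2
  have h3L := three_ne h3
  set κ := kap a b s with hκ
  set v := vv a b s with hv
  set w := ww a b s with hw
  have ev : v ^ 2 = 1 + κ * (a ^ 3 - 1) := vv_eqn hden
  have ew : w ^ 2 = 1 + κ * (b ^ 3 - 1) := ww_eqn hden
  have hv1 : v - 1 ≠ 0 := by rw [hv, vv, add_sub_cancel_left]; exact hvm
  have hsvw : s = (w - 1) / (v - 1) := by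
    rw [hw, hv, ww, vv, add_sub_cancel_left, add_sub_cancel_left, mul_div_cancel_right₀ _ hvm]
  have hD := D_ne hκ0 hκ1
  have n1 : (crv (κ ^ 2 * (1 - κ))).Nonsingular (κ * 1) (κ * 1) :=
    crv_nonsing h2L h3L hD (by ring)
  have nA : (crv (κ ^ 2 * (1 - κ))).Nonsingular (κ * a) (κ * v) :=
    crv_nonsing h2L h3L hD (onCurve ev)
  have nQ : (crv (κ ^ 2 * (1 - κ))).Nonsingular (κ * b) (κ * w) :=
    crv_nonsing h2L h3L hD (onCurve ew)
  obtain ⟨a', ha'⟩ : ∃ a', a' = ((v - 1) / (a - 1)) ^ 2 / κ - a - 1 := ⟨_, rfl⟩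
  obtain ⟨v', hv'⟩ : ∃ v', v' = -((v - 1) / (a - 1) * (a' - a) + v) := ⟨_, rfl⟩
  obtain ⟨b', hb'⟩ : ∃ b', b' = ((w - v) / (b - a)) ^ 2 / κ - b - a := ⟨_, rfl⟩
  obtain ⟨w', hw'⟩ : ∃ w', w' = -((w - v) / (b - a) * (b' - b) + w) := ⟨_, rfl⟩
  obtain ⟨nA', eA⟩ := chord_pt hκ0 nA n1 ha1 ha' hv'
  obtain ⟨nQ', eQ⟩ := chord_pt hκ0 nQ nA hba hb' hw'
  have offCurve : ∀ {x y : FractionRing (MvPolynomial (Fin 4) K)},
      (crv (κ ^ 2 * (1 - κ))).Nonsingular (κ * x) (κ * y) → y ^ 2 = 1 + κ * (x ^ 3 - 1) := by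
    intro x y h
    have := crv_eqn.1 h.1
    apply mul_left_cancel₀ (pow_ne_zero 2 hκ0)
    linear_combination this
  have ev' := offCurve nA'
  have ew' := offCurve nQ'
  -- first independence statement
  have ind1 : AlgebraicIndependent K ![xx K 0, κ, a', b'] := by
    apply algInd_of_mem
    set y : Fin 4 → FractionRing (MvPolynomial (Fin 4) K) := ![xx K 0, κ, a', b'] with hy
    have m0 : xx K 0 ∈ algSub (K := K) y := mem_algSub_self y 0
    have m1 : κ ∈ algSub (K := K) y := mem_algSub_self y 1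
    have m2 : a' ∈ algSub (K := K) y := mem_algSub_self y 2
    have m3 : b' ∈ algSub (K := K) y := mem_algSub_self y 3
    have m4 : v' ∈ algSub (K := K) y := by
      apply mem_algSub_of_pow y (n := 2) (by norm_num)
      rw [ev']
      exact add_mem (one_mem _) (mul_mem m1 (sub_mem (pow_mem m2 3) (one_mem _)))
    have m5 : w' ∈ algSub (K := K) y := by
      apply mem_algSub_of_pow y (n := 2) (by norm_num)
      rw [ew']
      exact add_mem (one_mem _) (mul_mem m1 (sub_mem (pow_mem m3 3) (one_mem _)))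
    obtain ⟨q1, q2, q3, q4⟩ := back hκ0 m1 m2 m4 m3 m5 n1 nA nQ nA' nQ' eA eQ
    have q5 : s ∈ algSub (K := K) y := by
      rw [hsvw]; exact div_mem (sub_mem q4 (one_mem _)) (sub_mem q2 (one_mem _))
    have key : ∀ j, xx K j / xx K 0 ∈ algSub (K := K) y → xx K j ∈ algSub (K := K) y := by
      intro j hj
      have := mul_mem hj m0
      rwa [div_mul_cancel₀ _ (xx_ne 0)] at this
    intro i
    fin_cases i
    · exact m0
    · exact key 1 (ha ▸ q1)
    · exact key 2 (hb ▸ q3)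
    · exact key 3 (hs ▸ q5)
  have hv1' : v' ^ 2 ≠ 1 := by
    have := ne_of_eval ind1 (X 1 * (X 2 ^ 3 - 1)) ![0, 1, 0, 0] (by simp)
    intro h
    apply this
    simp only [map_mul, map_sub, map_pow, map_one, aeval_X]
    show κ * (a' ^ 3 - 1) = 0
    linear_combination h - ev'
  have hw1' : w' ≠ 1 := by
    have := ne_of_eval ind1 (X 1 * (X 3 ^ 3 - 1)) ![0, 1, 0, 0] (by simp)
    intro h
    apply this
    simp only [map_mul, map_sub, map_pow, map_one, aeval_X]
    show κ * (b' ^ 3 - 1) = 0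
    rw [h] at ew'
    linear_combination -ew'
  have hvw' : v' ≠ w' := by
    have := ne_of_eval ind1 (X 1 * (X 2 ^ 3 - X 3 ^ 3)) ![0, 1, 1, 0] (by simp)
    intro h
    apply this
    simp only [map_mul, map_sub, map_pow, aeval_X]
    show κ * (a' ^ 3 - b' ^ 3) = 0
    rw [h] at ev'
    linear_combination ew' - ev'
  obtain ⟨s', hs'⟩ : ∃ s', s' = (w' - 1) / (v' - 1) := ⟨_, rfl⟩
  obtain ⟨hden', rv, rw', rκ⟩ := recover h2L ev' ew' hv1' hw1' hvw' hs'
  -- all coordinates are quotients of forms of the same degree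
  have hfx : ∀ j, HomFrac (xx K j / xx K 0) := fun j =>
    ⟨1, X j, X 0, X_ne_zero 0, isHomogeneous_X _ _, isHomogeneous_X _ _, rfl⟩
  have fa : HomFrac a := ha ▸ hfx 1
  have fb : HomFrac b := hb ▸ hfx 2
  have fs : HomFrac s := hs ▸ hfx 3
  have fα : HomFrac (a ^ 3 - 1) := (fa.pow 3).sub HomFrac.one
  have fβ : HomFrac (b ^ 3 - 1) := (fb.pow 3).sub HomFrac.one
  have fden : HomFrac (den a b s) := fβ.sub ((fs.pow 2).mul fα)
  have fvm : HomFrac (vm a b s) := (HomFrac.two.mul ((fs.mul fα).sub fβ)).div fden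
  have fv : HomFrac v := HomFrac.one.add fvm
  have fw : HomFrac w := HomFrac.one.add (fs.mul fvm)
  have fκ : HomFrac κ :=
    (((HomFrac.four.mul fs).mul (HomFrac.one.sub fs)).mul ((fs.mul fα).sub fβ)).div (fden.pow 2)
  have fa' : HomFrac a' := by
    rw [ha']
    exact (((((fv.sub HomFrac.one).div (fa.sub HomFrac.one)).pow 2).div fκ).sub fa).sub HomFrac.one
  have fv' : HomFrac v' := by
    rw [hv']
    exact ((((fv.sub HomFrac.one).div (fa.sub HomFrac.one)).mul (fa'.sub fa)).add fv).neg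
  have fb' : HomFrac b' := by
    rw [hb']
    exact (((((fw.sub fv).div (fb.sub fa)).pow 2).div fκ).sub fb).sub fa
  have fw' : HomFrac w' := by
    rw [hw']
    exact ((((fw.sub fv).div (fb.sub fa)).mul (fb'.sub fb)).add fw).neg
  have fs' : HomFrac s' := by
    rw [hs']; exact (fw'.sub HomFrac.one).div (fv'.sub HomFrac.one)
  obtain ⟨F, d, hred, hF0, ga, gb, gs⟩ := tuple_of_homFrac fa' fb' fs'
  have a'_nonconst : ∀ c : K, a' ≠ algebraMap K _ c := by
    intro c hc
    have := ne_of_eval ind1 (X 2 - C c) ![0, 0, c + 1, 0] (by simp)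
    apply this
    simp only [map_sub, aeval_X, aeval_C]
    show a' - algebraMap K _ c = 0
    rw [hc, sub_self]
  have hd : 0 < d := by
    rcases Nat.eq_zero_or_pos d with rfl | h
    · exfalso
      have c0 := (totalDegree_zero_iff_isHomogeneous _).2 (hred.homogeneous 0)
      have c1 := (totalDegree_zero_iff_isHomogeneous _).2 (hred.homogeneous 1)
      rw [totalDegree_eq_zero_iff_eq_C] at c0 c1
      apply a'_nonconst (coeff 0 (F 1) / coeff 0 (F 0))
      rw [ga, c0, c1]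
      simp only [coeff_C, if_true, map_div₀]
      rfl
    · exact h
  -- dominance
  have hdom : AlgebraicIndependent K (fun i => algebraMap (MvPolynomial (Fin 4) K)
      (FractionRing (MvPolynomial (Fin 4) K)) (F i)) := by
    apply algInd_of_mem
    set y : Fin 4 → FractionRing (MvPolynomial (Fin 4) K) := fun i =>
      algebraMap (MvPolynomial (Fin 4) K) (FractionRing (MvPolynomial (Fin 4) K)) (F i) with hy
    have m0 := mem_algSub_self (K := K) y 0
    have m1 := mem_algSub_self (K := K) y 1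
    have m2 := mem_algSub_self (K := K) y 2
    have m3 := mem_algSub_self (K := K) y 3
    have ma : a' ∈ algSub (K := K) y := by rw [ga]; exact div_mem m1 m0
    have mb : b' ∈ algSub (K := K) y := by rw [gb]; exact div_mem m2 m0
    have ms : s' ∈ algSub (K := K) y := by rw [gs]; exact div_mem m3 m0
    have m2' : (2 : FractionRing (MvPolynomial (Fin 4) K)) ∈ algSub (K := K) y := by
      have := mem_algSub_const (K := K) y 2
      rwa [map_ofNat] at this
    have m4' : (4 : FractionRing (MvPolynomial (Fin 4) K)) ∈ algSub (K := K) y := by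
      have := mem_algSub_const (K := K) y 4
      rwa [map_ofNat] at this
    have mα : a' ^ 3 - 1 ∈ algSub (K := K) y := sub_mem (pow_mem ma 3) (one_mem _)
    have mβ : b' ^ 3 - 1 ∈ algSub (K := K) y := sub_mem (pow_mem mb 3) (one_mem _)
    have mden : den a' b' s' ∈ algSub (K := K) y :=
      sub_mem mβ (mul_mem (pow_mem ms 2) mα)
    have mvm : vm a' b' s' ∈ algSub (K := K) y :=
      div_mem (mul_mem m2' (sub_mem (mul_mem ms mα) mβ)) mden
    have mv : v' ∈ algSub (K := K) y := by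
      rw [← rv]; exact add_mem (one_mem _) mvm
    have mw : w' ∈ algSub (K := K) y := by
      rw [← rw']; exact add_mem (one_mem _) (mul_mem ms mvm)
    have mκ : κ ∈ algSub (K := K) y := by
      rw [← rκ]
      exact div_mem (mul_mem (mul_mem (mul_mem m4' ms) (sub_mem (one_mem _) ms))
        (sub_mem (mul_mem ms mα) mβ)) (pow_mem mden 2)
    obtain ⟨q1, q2, q3, q4⟩ := back hκ0 mκ ma mv mb mw n1 nA nQ nA' nQ' eA eQ
    have q5 : s ∈ algSub (K := K) y := by
      rw [hsvw]; exact div_mem (sub_mem q4 (one_mem _)) (sub_mem q2 (one_mem _))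
    have hq : ∀ i, xx K i / xx K 0 ∈ algSub (K := K) y := by
      intro i
      fin_cases i
      · show xx K 0 / xx K 0 ∈ _
        rw [div_self (xx_ne 0)]; exact one_mem _
      · exact ha ▸ q1
      · exact hb ▸ q3
      · exact hs ▸ q5
    have hx0 : xx K 0 ∈ algSub (K := K) y := by
      apply mem_algSub_of_pow y hd
      have e := homog_scale (hred.homogeneous 0)
      have hz : aeval (fun i => xx K i / xx K 0) (F 0) ∈ algSub (K := K) y := by
        generalize F 0 = p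
        induction p using MvPolynomial.induction_on with
        | C c => rw [aeval_C]; exact mem_algSub_const y c
        | add p q hp hq' => rw [map_add]; exact add_mem hp hq'
        | mul_X p i hp => rw [map_mul, aeval_X]; exact mul_mem hp (hq i)
      have hz0 : aeval (fun i => xx K i / xx K 0) (F 0) ≠ 0 := by
        intro h
        rw [h, mul_zero] at e
        exact map_ne hF0 e
      have : xx K 0 ^ d = algebraMap (MvPolynomial (Fin 4) K)
          (FractionRing (MvPolynomial (Fin 4) K)) (F 0)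
          / aeval (fun i => xx K i / xx K 0) (F 0) := by
        rw [e, mul_div_cancel_right₀ _ hz0]
      rw [this]
      exact div_mem m0 hz
    intro i
    have := mul_mem (hq i) hx0
    rwa [div_mul_cancel₀ _ (xx_ne 0)] at this
  have hinj : Function.Injective (aeval F : MvPolynomial (Fin 4) K →ₐ[K] _) := by
    rw [injective_iff_map_eq_zero]
    intro P hP
    apply hdom
    rw [map_zero]
    have e : aeval (fun i => algebraMap (MvPolynomial (Fin 4) K)
        (FractionRing (MvPolynomial (Fin 4) K)) (F i)) P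
        = algebraMap (MvPolynomial (Fin 4) K) (FractionRing (MvPolynomial (Fin 4) K))
          (aeval F P) := by
      have : aeval (fun i => algebraMap (MvPolynomial (Fin 4) K)
          (FractionRing (MvPolynomial (Fin 4) K)) (F i))
          = (IsScalarTower.toAlgHom K (MvPolynomial (Fin 4) K)
            (FractionRing (MvPolynomial (Fin 4) K))).comp (aeval F) := by
        apply MvPolynomial.algHom_ext
        intro i; simp
      rw [this]; rfl
    rw [e, hP, map_zero]
  have hinj' : Function.Injective ((IsScalarTower.toAlgHom K (MvPolynomial (Fin 4) K)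
      (FractionRing (MvPolynomial (Fin 4) K))).comp (aeval F)) :=
    (IsFractionRing.injective (MvPolynomial (Fin 4) K)
      (FractionRing (MvPolynomial (Fin 4) K))).comp hinj
  obtain ⟨Φ, hΦ⟩ : ∃ Φ : FractionRing (MvPolynomial (Fin 4) K) →ₐ[K]
      FractionRing (MvPolynomial (Fin 4) K),
      ∀ p : MvPolynomial (Fin 4) K, Φ (algebraMap _ _ p) = algebraMap _ _ (aeval F p) := by
    refine ⟨IsFractionRing.liftAlgHom hinj', fun p => ?_⟩
    rw [IsFractionRing.liftAlgHom_apply, IsFractionRing.lift_algebraMap]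
    rfl
  have hΦx : ∀ i, Φ (xx K i) = algebraMap _ _ (F i) := by
    intro i; rw [xx, hΦ, aeval_X]
  have Φa : Φ a = a' := by rw [ha, map_div₀, hΦx, hΦx, ga]
  have Φb : Φ b = b' := by rw [hb, map_div₀, hΦx, hΦx, gb]
  have Φs : Φ s = s' := by rw [hs, map_div₀, hΦx, hΦx, gs]
  have Φden : Φ (den a b s) = den a' b' s' := by
    simp only [den, map_sub, map_mul, map_pow, map_one, Φa, Φb, Φs]
  have Φvm : Φ (vm a b s) = vm a' b' s' := by
    simp only [vm, map_div₀, map_sub, map_mul, map_pow, map_one, Φa, Φb, Φs, Φden, map_ofNat]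
  have Φv : Φ v = v' := by
    rw [← rv, hv, vv, vv, map_add, map_one, Φvm]
  have Φw : Φ w = w' := by
    rw [← rw', hw, ww, ww, map_add, map_one, map_mul, Φvm, Φs]
  have Φκ : Φ κ = κ := by
    conv_rhs => rw [← rκ]
    rw [hκ]
    simp only [kap, map_div₀, map_sub, map_mul, map_pow, map_one, Φa, Φb, Φs, Φden, map_ofNat]
  refine ⟨F, d, Φ, hred, fun P hP => hinj (by rw [hP, map_zero]), hΦ, Φκ, ?_, ?_, ?_, ?_, ?_, ?_⟩
  · rw [Φa, ha']
  · rw [Φv, Φa, hv']
  · rw [Φb, hb']
  · rw [Φw, Φb, hw']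
  · -- coprime representation of the invariant
    obtain ⟨m, p, q, hq, hp1, hq1, e⟩ := fκ.div (HomFrac.one.sub fκ)
    have hκnc : ∀ c : K, κ ≠ algebraMap K _ c := by
      intro c hc
      have := ne_of_eval ind1 (X 1 - C c) ![0, c + 1, 0, 0] (by simp)
      apply this
      simp only [map_sub, aeval_X, aeval_C]
      show κ - algebraMap K _ c = 0
      rw [hc, sub_self]
    have H0 : ∀ i : Fin 2, ((![p, q] : Fin 2 → MvPolynomial (Fin 4) K) i).IsHomogeneous m := by
      intro i; fin_cases i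
      · exact hp1
      · exact hq1
    have nG : NormalizedGCDMonoid (MvPolynomial (Fin 4) K) := Classical.choice inferInstance
    obtain ⟨p', q', ep, eq', hpq'⟩ := extract_gcd p q
    obtain ⟨g, hgdef⟩ : ∃ g, g = GCDMonoid.gcd p q := ⟨_, rfl⟩
    rw [← hgdef] at ep eq'
    have hg : g ≠ 0 := by
      intro h
      rw [h, zero_mul] at eq'
      exact hq eq'
    have hq'0 : q' ≠ 0 := by rintro rfl; rw [mul_zero] at eq'; exact hq eq'
    have hκ1' : 1 - κ ≠ 0 := sub_ne_zero.2 hκ1.symm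
    have hξ0 : κ / (1 - κ) ≠ 0 := div_ne_zero hκ0 hκ1'
    have hp0 : p ≠ 0 := by
      rintro rfl
      rw [map_zero, zero_div] at e
      exact hξ0 e
    have hp'0 : p' ≠ 0 := by rintro rfl; rw [mul_zero] at ep; exact hp0 ep
    obtain ⟨i1, j1, hij1, c1, c2⟩ := homog_of_mul (ep ▸ hp1) (ep ▸ hp0)
    obtain ⟨i2, j2, hij2, c3, c4⟩ := homog_of_mul (eq' ▸ hq1) (eq' ▸ hq)
    have hi : i1 = i2 := c1.inj_right c3 hg
    have hj : j1 = j2 := by omega
    subst hj
    have erep : κ / (1 - κ) = algebraMap _ _ p' / algebraMap _ _ q' := by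
      rw [e, ep, eq', map_mul, map_mul, mul_div_mul_left _ _ (map_ne hg)]
    refine ⟨j1, ?_, p', q', ?_, c2, c4, hq'0, erep⟩
    · rcases Nat.eq_zero_or_pos j1 with rfl | h
      · exfalso
        have t0 := (totalDegree_zero_iff_isHomogeneous _).2 c2
        have t1 := (totalDegree_zero_iff_isHomogeneous _).2 c4
        rw [totalDegree_eq_zero_iff_eq_C] at t0 t1
        -- then `κ / (1 - κ)` is a constant `c`, so `κ = c / (1 + c)`
        set c := coeff 0 p' / coeff 0 q' with hc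
        have ec : κ / (1 - κ) = algebraMap K _ c := by
          rw [erep, t0, t1, hc, map_div₀]; rfl
        have ec' : κ * (1 + algebraMap K _ c) = algebraMap K _ c := by
          rw [div_eq_iff hκ1'] at ec
          linear_combination ec
        have hc1 : (1 : K) + c ≠ 0 := by
          intro h
          have : (1 : FractionRing (MvPolynomial (Fin 4) K)) + algebraMap K _ c = 0 := by
            rw [← map_one (algebraMap K (FractionRing (MvPolynomial (Fin 4) K))), ← map_add, h,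
              map_zero]
          rw [this, mul_zero] at ec'
          rw [← ec', add_zero] at this
          exact one_ne_zero this
        apply hκnc (c / (1 + c))
        rw [map_div₀, map_add, map_one, eq_div_iff]
        · exact ec'
        · intro h
          apply hc1
          have : algebraMap K (FractionRing (MvPolynomial (Fin 4) K)) (1 + c) = 0 := by
            rw [map_add, map_one, h]
          exact (map_eq_zero _).1 this
      · exact h
    · intro r hr1 hr2
      exact isUnit_of_dvd_unit (dvd_gcd hr1 hr2) hpq'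
  · intro c hc
    apply a'_nonconst c
    rw [← Φa, hc]
    exact Φ.commutes c

end Main

section Final
variable {K : Type*} [Field K]

lemma DegLE.exists_le (g : FractionRing (MvPolynomial (Fin 4) K)) : ∃ e, DegLE g e := by
  obtain ⟨p, q, hq, rfl⟩ := IsFractionRing.div_surjective (A := MvPolynomial (Fin 4) K) g
  exact ⟨max p.totalDegree q.totalDegree, p, q, nonZeroDivisors.ne_zero hq, le_max_left _ _,
    le_max_right _ _, rfl⟩

lemma ww_degree {a b s : FractionRing (MvPolynomial (Fin 4) K)} {e : ℕ} (ha : DegLE a e)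
    (hb : DegLE b e) (hs : DegLE s e) : DegLE (ww a b s) (16 * e) := by
  have hα : DegLE (a ^ 3 - 1) (3 * e) := ((ha.pow 3).sub (DegLE.one 0)).mono (by omega)
  have hβ : DegLE (b ^ 3 - 1) (3 * e) := ((hb.pow 3).sub (DegLE.one 0)).mono (by omega)
  have hden : DegLE (den a b s) (8 * e) := (hβ.sub ((hs.pow 2).mul hα)).mono (by omega)
  have hvm : DegLE (vm a b s) (15 * e) :=
    (((DegLE.two 0).mul ((hs.mul hα).sub hβ)).div hden).mono (by omega)
  exact ((DegLE.one 0).add (hs.mul hvm)).mono (by omega)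

lemma iter_pow {F : Fin 4 → MvPolynomial (Fin 4) K}
    {Φ : FractionRing (MvPolynomial (Fin 4) K) →ₐ[K] FractionRing (MvPolynomial (Fin 4) K)}
    (hΦ : ∀ p : MvPolynomial (Fin 4) K, Φ (algebraMap _ _ p) = algebraMap _ _ (aeval F p))
    (n : ℕ) (i : Fin 4) : algebraMap _ _ (iter F n i) = (Φ ^ n) (xx K i) := by
  induction n with
  | zero => rw [pow_zero, AlgHom.one_apply]; rfl
  | succ n ih =>
    rw [pow_succ', AlgHom.mul_apply, ← ih, hΦ]; rfl

/-- the degrees of the iterates grow too slowly to be exponential and too fast to be cubic -/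
lemma growth (h2 : (2 : K) ≠ 0) (h3 : (3 : K) ≠ 0) :
    ∃ (F : Fin 4 → MvPolynomial (Fin 4) K) (d : ℕ) (D : ℕ → ℕ),
      IsReduced F d ∧ IsDominant F ∧ (∀ n, IsIterateDegree F n (D n)) ∧
      (∀ n, 1 ≤ D n) ∧ (∃ C : ℕ, ∀ n, 1 ≤ n → D n ≤ C * n ^ 18) ∧
      (∀ C n₀ : ℕ, ∃ n, n₀ ≤ n ∧ C * n ^ 3 < D n) := by
  classical
  obtain ⟨a, ha⟩ : ∃ a, a = xx K 1 / xx K 0 := ⟨_, rfl⟩
  obtain ⟨b, hb⟩ : ∃ b, b = xx K 2 / xx K 0 := ⟨_, rfl⟩
  obtain ⟨s, hs⟩ : ∃ s, s = xx K 3 / xx K 0 := ⟨_, rfl⟩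
  obtain ⟨F, d, Φ, hred, hdom, hΦ, Φκ, Φa, Φv, Φb, Φw, ⟨e₀, he₀, hrep⟩, hconst⟩ :=
    exists_map h2 h3 ha hb hs
  obtain ⟨hden, ha1, hba, hvm, hκ0, hκ1⟩ := generic_facts h2 ha hb hs
  have ev := vv_eqn hden
  have ew := ww_eqn hden
  have h2L := two_ne h2
  have h3L := three_ne h3
  have hsvw : s = (ww a b s - 1) / (vv a b s - 1) := by
    rw [ww, vv, add_sub_cancel_left, add_sub_cancel_left, mul_div_cancel_right₀ _ hvm]
  have hwabs : ww a b s = ww a b s := rfl
  obtain ⟨κ, hκ⟩ : ∃ κ, κ = kap a b s := ⟨_, rfl⟩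
  obtain ⟨v, hv⟩ : ∃ v, v = vv a b s := ⟨_, rfl⟩
  obtain ⟨w, hw⟩ : ∃ w, w = ww a b s := ⟨_, rfl⟩
  rw [← hκ] at Φκ Φa Φb hrep hκ0 hκ1 ev ew
  rw [← hv] at Φa Φv Φb Φw ev hsvw
  rw [← hw] at Φb Φw ew hsvw
  have hD := D_ne hκ0 hκ1
  have n1 : (crv (κ ^ 2 * (1 - κ))).Nonsingular (κ * 1) (κ * 1) :=
    crv_nonsing h2L h3L hD (by ring)
  have hκn : ∀ n : ℕ, (Φ ^ n) κ = κ := by
    intro n
    induction n with
    | zero => simp
    | succ n ih => rw [pow_succ, AlgHom.mul_apply, Φκ, ih]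
  have hinj : ∀ n : ℕ, Function.Injective (Φ ^ n) := fun n => (Φ ^ n).toRingHom.injective
  have evn : ∀ n, ((Φ ^ n) v) ^ 2 = 1 + κ * (((Φ ^ n) a) ^ 3 - 1) := by
    intro n
    have := congrArg (Φ ^ n) ev
    simpa only [map_pow, map_add, map_one, map_mul, map_sub, hκn] using this
  have ewn : ∀ n, ((Φ ^ n) w) ^ 2 = 1 + κ * (((Φ ^ n) b) ^ 3 - 1) := by
    intro n
    have := congrArg (Φ ^ n) ew
    simpa only [map_pow, map_add, map_one, map_mul, map_sub, hκn] using this
  have hA : ∀ n, (crv (κ ^ 2 * (1 - κ))).Nonsingular (κ * (Φ ^ n) a) (κ * (Φ ^ n) v) :=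
    fun n => crv_nonsing h2L h3L hD (onCurve (evn n))
  have hQ : ∀ n, (crv (κ ^ 2 * (1 - κ))).Nonsingular (κ * (Φ ^ n) b) (κ * (Φ ^ n) w) :=
    fun n => crv_nonsing h2L h3L hD (onCurve (ewn n))
  have hstep : ∀ (n : ℕ) (z : FractionRing (MvPolynomial (Fin 4) K)),
      (Φ ^ (n + 1)) z = (Φ ^ n) (Φ z) := fun n z => by rw [pow_succ, AlgHom.mul_apply]
  have orb := orbit hκ0 (fun n => (Φ ^ n) a) (fun n => (Φ ^ n) v) (fun n => (Φ ^ n) b)
    (fun n => (Φ ^ n) w) hA hQ n1
    (fun n h => ha1 (hinj n (by rw [h, map_one])))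
    (fun n h => hba (hinj n h))
    (fun n => by
      simp only [hstep, Φa]
      simp only [map_sub, map_div₀, map_pow, map_one, hκn])
    (fun n => by
      simp only [hstep, Φv]
      simp only [map_neg, map_add, map_mul, map_sub, map_div₀, map_one])
    (fun n => by
      simp only [hstep, Φb]
      simp only [map_sub, map_div₀, map_pow, hκn])
    (fun n => by
      simp only [hstep, Φw]
      simp only [map_neg, map_add, map_mul, map_sub, map_div₀])
  -- degrees of the iterates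
  have hx0 : ∀ n, iter F n 0 ≠ 0 := by
    intro n h
    have := iter_pow hΦ n 0
    rw [h, map_zero] at this
    exact xx_ne (K := K) 0 (hinj n (by rw [← this, map_zero]))
  have hex : ∀ n, ∃ (c : MvPolynomial (Fin 4) K) (G : Fin 4 → MvPolynomial (Fin 4) K) (e : ℕ),
      c ≠ 0 ∧ (∀ i, iter F n i = c * G i) ∧ IsReduced G e := fun n =>
    extract_reduced (N := 3) (iter F n) (d ^ n) (iter_homog hred.homogeneous n) 0 (hx0 n)
  choose c G D hc hG hGred using hex
  have hG0 : ∀ n, G n 0 ≠ 0 := by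
    intro n h
    apply hx0 n
    rw [hG, h, mul_zero]
  have hcoord : ∀ n i, (Φ ^ n) (xx K i / xx K 0)
      = algebraMap _ (FractionRing (MvPolynomial (Fin 4) K)) (G n i)
        / algebraMap _ _ (G n 0) := by
    intro n i
    rw [map_div₀, ← iter_pow hΦ, ← iter_pow hΦ, hG, hG, map_mul, map_mul,
      mul_div_mul_left _ _ (map_ne (hc n))]
  have hdeg : ∀ n i, DegLE ((Φ ^ n) (xx K i / xx K 0)) (D n) := by
    intro n i
    rw [hcoord]
    exact ⟨G n i, G n 0, hG0 n, ((hGred n).homogeneous i).totalDegree_le,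
      ((hGred n).homogeneous 0).totalDegree_le, rfl⟩
  have hdega : ∀ n, DegLE ((Φ ^ n) a) (D n) := fun n => by rw [ha]; exact hdeg n 1
  have hdegb : ∀ n, DegLE ((Φ ^ n) b) (D n) := fun n => by rw [hb]; exact hdeg n 2
  have hdegs : ∀ n, DegLE ((Φ ^ n) s) (D n) := fun n => by rw [hs]; exact hdeg n 3
  have hdegw : ∀ n, DegLE ((Φ ^ n) w) (16 * D n) := by
    intro n
    have : (Φ ^ n) w = ww ((Φ ^ n) a) ((Φ ^ n) b) ((Φ ^ n) s) := by
      rw [hw]
      simp only [ww, vm, den, map_add, map_one, map_mul, map_div₀, map_sub, map_pow, map_ofNat]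
    rw [this]; exact ww_degree (hdega n) (hdegb n) (hdegs n)
  -- uniform constants
  obtain ⟨e₁, he₁⟩ := DegLE.exists_le κ
  obtain ⟨e₂, he₂⟩ := DegLE.exists_le (κ * a)
  obtain ⟨e₃, he₃⟩ := DegLE.exists_le (κ * v)
  obtain ⟨e₄, he₄⟩ := DegLE.exists_le (κ * b)
  obtain ⟨e₅, he₅⟩ := DegLE.exists_le (κ * w)
  obtain ⟨e₆, he₆⟩ := DegLE.exists_le (κ ^ 2 * (1 - κ))
  obtain ⟨E, hE⟩ : ∃ E, E = e₁ + e₂ + e₃ + e₄ + e₅ + e₆ + 1 := ⟨_, rfl⟩
  have k1 : DegLE κ E := he₁.mono (by omega)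
  have k6 : DegLE (κ ^ 2 * (1 - κ)) E := he₆.mono (by omega)
  have p1 : PtLE (Point.some _ _ n1) E := by
    intro x y h e
    simp only [Point.some.injEq] at e
    rw [← e.1, ← e.2, mul_one]; exact ⟨k1, k1⟩
  have pA0 : PtLE (Point.some _ _ (hA 0)) E := by
    intro x y h e
    simp only [Point.some.injEq, pow_zero, AlgHom.one_apply] at e
    rw [← e.1, ← e.2]; exact ⟨he₂.mono (by omega), he₃.mono (by omega)⟩
  have pQ0 : PtLE (Point.some _ _ (hQ 0)) E := by
    intro x y h e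
    simp only [Point.some.injEq, pow_zero, AlgHom.one_apply] at e
    rw [← e.1, ← e.2]; exact ⟨he₄.mono (by omega), he₅.mono (by omega)⟩
  have hE1 : 1 ≤ E := by omega
  refine ⟨F, d, D, hred, hdom, fun n => ⟨c n, G n, hc n, hG n, hGred n⟩, ?_, ?_, ?_⟩
  · -- lower bound `1 ≤ D n`
    intro n
    by_contra hlt
    have h0 : D n = 0 := by omega
    have g0 := (hGred n).homogeneous 0
    have g1 := (hGred n).homogeneous 1
    rw [h0] at g0 g1
    have t0 := (totalDegree_zero_iff_isHomogeneous _).2 g0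
    have t1 := (totalDegree_zero_iff_isHomogeneous _).2 g1
    rw [totalDegree_eq_zero_iff_eq_C] at t0 t1
    apply hconst (coeff 0 (G n 1) / coeff 0 (G n 0))
    apply hinj n
    rw [(Φ ^ n).commutes, ha, hcoord, t0, t1, map_div₀]
    simp only [coeff_C, if_true]
    rfl
  · -- polynomial upper bound
    refine ⟨1806 * E, fun n hn => ?_⟩
    obtain ⟨o1, o2⟩ := orb n
    have c1 : n.choose 2 ≤ n ^ 2 := Nat.choose_le_pow n 2
    have q9 : (n.choose 2) ^ 9 ≤ n ^ 18 := by
      calc (n.choose 2) ^ 9 ≤ (n ^ 2) ^ 9 := Nat.pow_le_pow_left c1 9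
        _ = n ^ 18 := by ring
    have r9 : n ^ 9 ≤ n ^ 18 := Nat.pow_le_pow_right hn (by norm_num)
    have r0 : 1 ≤ n ^ 18 := Nat.one_le_pow _ _ hn
    obtain ⟨M, hM⟩ : ∃ M, M = E * n ^ 18 := ⟨_, rfl⟩
    have m1 : E ≤ M := by rw [hM]; exact Nat.le_mul_of_pos_right E r0
    have m2 : E * n ^ 9 ≤ M := by rw [hM]; exact Nat.mul_le_mul_left E r9
    have m3 : E * (n.choose 2) ^ 9 ≤ M := by rw [hM]; exact Nat.mul_le_mul_left E q9
    have pA : PtLE (Point.some _ _ (hA n)) (300 * M) := by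
      rw [o1]
      exact (pA0.add (p1.nsmul n)).mono (by omega)
    have pQ : PtLE (Point.some _ _ (hQ n)) (300 * M) := by
      rw [o2]
      exact ((pQ0.add (pA0.nsmul n)).add (p1.nsmul (n.choose 2))).mono (by omega)
    have da : DegLE ((Φ ^ n) a) (301 * M) := by
      have := ((pA _ _ _ rfl).1.div k1)
      rw [mul_div_cancel_left₀ _ hκ0] at this
      exact this.mono (by omega)
    have dv : DegLE ((Φ ^ n) v) (301 * M) := by
      have := ((pA _ _ _ rfl).2.div k1)
      rw [mul_div_cancel_left₀ _ hκ0] at this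
      exact this.mono (by omega)
    have db : DegLE ((Φ ^ n) b) (301 * M) := by
      have := ((pQ _ _ _ rfl).1.div k1)
      rw [mul_div_cancel_left₀ _ hκ0] at this
      exact this.mono (by omega)
    have dw : DegLE ((Φ ^ n) w) (301 * M) := by
      have := ((pQ _ _ _ rfl).2.div k1)
      rw [mul_div_cancel_left₀ _ hκ0] at this
      exact this.mono (by omega)
    have ds : DegLE ((Φ ^ n) s) (602 * M) := by
      have : (Φ ^ n) s = ((Φ ^ n) w - 1) / ((Φ ^ n) v - 1) := by
        conv_lhs => rw [hsvw]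
        simp only [map_div₀, map_sub, map_one]
      rw [this]
      exact ((dw.sub (DegLE.one 0)).div (dv.sub (DegLE.one 0))).mono (by omega)
    have := reduced_degree_le (e := 602 * M) (hGred n) (hG0 n)
      (by rw [← hcoord, ← ha]; exact da.mono (by omega))
      (by rw [← hcoord, ← hb]; exact db.mono (by omega))
      (by rw [← hcoord, ← hs]; exact ds)
    calc D n ≤ 3 * (602 * M) := this
      _ = 1806 * E * n ^ 18 := by rw [hM]; ring
  · -- the degrees are not bounded by a cubic polynomial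
    intro C n₀
    by_contra hcon
    push Not at hcon
    obtain ⟨B, hB⟩ : ∃ B, B = 432 * (4 * E + 160 * C) + E + n₀ + 1 := ⟨_, rfl⟩
    obtain ⟨j, hj⟩ : ∃ j : ℕ, B < 2 ^ j := ⟨B, Nat.lt_two_pow_self⟩
    obtain ⟨m, hm⟩ : ∃ m, m = 2 ^ j := ⟨_, rfl⟩
    rw [← hm] at hj
    have hm1 : 1 ≤ m := by omega
    have D1 : D m ≤ C * m ^ 3 := hcon m (by omega)
    have D2 : D (2 * m) ≤ C * (2 * m) ^ 3 := hcon (2 * m) (by omega)
    have D2' : D (2 * m) ≤ 8 * (C * m ^ 3) := by
      refine D2.trans (le_of_eq (by ring))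
    obtain ⟨T, hT⟩ : ∃ T, T = C * m ^ 3 := ⟨_, rfl⟩
    rw [← hT] at D1 D2'
    have pQn : ∀ n, PtLE (Point.some _ _ (hQ n)) (E + 16 * D n) := by
      intro n x y h e
      simp only [Point.some.injEq] at e
      rw [← e.1, ← e.2]
      exact ⟨(k1.mul (hdegb n)).mono (by omega), k1.mul (hdegw n)⟩
    have hsum : (m ^ 2) • (Point.some _ _ n1 : (crv (κ ^ 2 * (1 - κ))).Point)
        = (Point.some _ _ (hQ (2 * m)) + Point.some _ _ (hQ 0))
          + -(Point.some _ _ (hQ m) + Point.some _ _ (hQ m)) := by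
      rw [(orb (2 * m)).2, (orb m).2]
      exact second_difference _ _ _ m
    have pm : PtLE ((m ^ 2) • (Point.some _ _ n1 : (crv (κ ^ 2 * (1 - κ))).Point))
        (144 * (4 * E + 160 * T)) := by
      rw [hsum]
      exact (((pQn (2 * m)).add pQ0).add ((pQn m).add (pQn m)).neg).mono (by omega)
    have e64 : (κ * 1) ^ 3 / (κ ^ 2 * (1 - κ)) = κ / (1 - κ) := by
      have : 1 - κ ≠ 0 := sub_ne_zero.2 hκ1.symm
      field_simp
    obtain ⟨x, y, h, hh, hr⟩ := two_pow_rep h2 h3 hD n1 he₀ (by rw [e64]; exact hrep) (2 * j)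
    have hmj : 2 ^ (2 * j) = m ^ 2 := by rw [hm, ← pow_mul, mul_comm]
    rw [hmj] at hh
    have dx := (pm x y h hh).1
    have dξ : DegLE (x ^ 3 / (κ ^ 2 * (1 - κ))) (3 * (144 * (4 * E + 160 * T)) + E) :=
      (dx.pow 3).div k6
    have hle := hr.le_of_degLE dξ
    have h4 : 4 ^ (2 * j) = m ^ 4 := by
      rw [hm, ← pow_mul, show (4 : ℕ) = 2 ^ 2 by norm_num, ← pow_mul]
      congr 1; ring
    rw [h4] at hle
    have m3 : 1 ≤ m ^ 3 := Nat.one_le_pow _ _ hm1
    have hle2 : m ^ 4 ≤ m ^ 4 * e₀ := Nat.le_mul_of_pos_right _ he₀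
    have hfin : m ^ 4 ≤ B * m ^ 3 := by
      calc m ^ 4 ≤ 3 * (144 * (4 * E + 160 * T)) + E := hle2.trans hle
        _ = 1728 * E + 69120 * (C * m ^ 3) + E := by rw [hT]; ring
        _ ≤ 1728 * (E * m ^ 3) + 69120 * (C * m ^ 3) + E * m ^ 3 := by
            have : E ≤ E * m ^ 3 := Nat.le_mul_of_pos_right E m3
            omega
        _ = (1728 * E + 69120 * C + E) * m ^ 3 := by ring
        _ ≤ B * m ^ 3 := Nat.mul_le_mul_right _ (by omega)
    have hlt : B * m ^ 3 < m * m ^ 3 := Nat.mul_lt_mul_of_pos_right hj (by omega)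
    have : m * m ^ 3 = m ^ 4 := by ring
    omega

end Final

section Unique
variable {K : Type*} [Field K] {N : ℕ}

lemma dvd_of_dvd_mul_coprime {G : Fin (N + 1) → MvPolynomial (Fin (N + 1)) K}
    (hG : ∀ c : MvPolynomial (Fin (N + 1)) K, (∀ i, c ∣ G i) → IsUnit c)
    {r q : MvPolynomial (Fin (N + 1)) K} (h : ∀ i, r ∣ q * G i) : r ∣ q := by
  classical
  have : NormalizedGCDMonoid (MvPolynomial (Fin (N + 1)) K) := Classical.choice inferInstance
  have h1 : r ∣ Finset.univ.gcd (fun i => q * G i) := Finset.dvd_gcd (fun i _ => h i)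
  have h2 : IsUnit (Finset.univ.gcd G) := hG _ (fun i => Finset.gcd_dvd (Finset.mem_univ i))
  have h3 : r ∣ q * Finset.univ.gcd G := h1.trans (Finset.gcd_mul_left' Finset.univ G q).dvd
  exact (h2.dvd_mul_right).1 h3

/-- the degree of an iterate is well defined -/
lemma iterateDegree_unique {F : Fin (N + 1) → MvPolynomial (Fin (N + 1)) K} {n e e' : ℕ}
    (h : IsIterateDegree F n e) (h' : IsIterateDegree F n e') : e = e' := by
  obtain ⟨c, G, hc, hG, hred⟩ := h
  obtain ⟨c', G', hc', hG', hred'⟩ := h'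
  have key : ∀ i, c * G i = c' * G' i := fun i => by rw [← hG, ← hG']
  have d1 : c ∣ c' := dvd_of_dvd_mul_coprime hred'.coprime (fun i => ⟨G i, (key i).symm⟩)
  have d2 : c' ∣ c := dvd_of_dvd_mul_coprime hred.coprime (fun i => ⟨G' i, key i⟩)
  obtain ⟨i, hi⟩ : ∃ i, G i ≠ 0 := by
    by_contra hcon
    push Not at hcon
    have := hred.coprime (X 0) (fun i => by rw [hcon i]; exact dvd_zero _)
    have h1 := unit_degree this (isHomogeneous_X K (0 : Fin (N + 1)))
    omega
  have hi' : G' i ≠ 0 := by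
    intro h0
    have := key i
    rw [h0, mul_zero] at this
    exact (mul_ne_zero hc hi) this
  obtain ⟨r, hr⟩ := d1
  obtain ⟨r', hr'⟩ := d2
  have t0 := congrArg totalDegree (key i)
  rw [totalDegree_mul_of_isDomain hc hi, totalDegree_mul_of_isDomain hc' hi',
    (hred.homogeneous i).totalDegree hi, (hred'.homogeneous i).totalDegree hi'] at t0
  have r0 : r ≠ 0 := by rintro rfl; rw [mul_zero] at hr; exact hc' hr
  have r0' : r' ≠ 0 := by rintro rfl; rw [mul_zero] at hr'; exact hc hr'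
  have t1 := congrArg totalDegree hr
  have t2 := congrArg totalDegree hr'
  rw [totalDegree_mul_of_isDomain hc r0] at t1
  rw [totalDegree_mul_of_isDomain hc' r0'] at t2
  omega

end Unique

section Analysis

lemma tendsto_root {D : ℕ → ℕ} (h1 : ∀ n, 1 ≤ D n)
    (h2 : ∃ C : ℕ, ∀ n, 1 ≤ n → D n ≤ C * n ^ 18) :
    Tendsto (fun n : ℕ => (D n : ℝ) ^ ((1 : ℝ) / (n : ℝ))) atTop (𝓝 1) := by
  obtain ⟨C, hC⟩ := h2
  have hCpos : (0 : ℝ) < (C : ℝ) + 1 := by positivity
  have hn : Tendsto (fun n : ℕ => (n : ℝ)) atTop atTop := tendsto_natCast_atTop_atTop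
  have ht : Tendsto (fun n : ℕ => (n : ℝ) ^ ((1 : ℝ) / (n : ℝ))) atTop (𝓝 1) :=
    tendsto_rpow_div.comp hn
  have hc : Tendsto (fun n : ℕ => ((C : ℝ) + 1) ^ ((1 : ℝ) / (n : ℝ))) atTop (𝓝 1) := by
    have : Tendsto (fun n : ℕ => (1 : ℝ) / (n : ℝ)) atTop (𝓝 0) :=
      tendsto_one_div_atTop_nhds_zero_nat
    have h := ((Real.continuous_const_rpow hCpos.ne').tendsto 0).comp this
    rwa [Real.rpow_zero] at h
  have hup : Tendsto (fun n : ℕ => ((C : ℝ) + 1) ^ ((1 : ℝ) / (n : ℝ)) *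
      ((n : ℝ) ^ ((1 : ℝ) / (n : ℝ))) ^ 18) atTop (𝓝 1) := by
    have := hc.mul (ht.pow 18)
    simpa using this
  refine tendsto_of_tendsto_of_tendsto_of_le_of_le' tendsto_const_nhds hup ?_ ?_
  · filter_upwards with n
    have : (1 : ℝ) ≤ (D n : ℝ) := by exact_mod_cast h1 n
    exact Real.one_le_rpow this (by positivity)
  · filter_upwards [eventually_ge_atTop 1] with n hn1
    have hn0 : (0 : ℝ) ≤ (n : ℝ) := by positivity
    have hD : (D n : ℝ) ≤ ((C : ℝ) + 1) * (n : ℝ) ^ 18 := by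
      have : (D n : ℝ) ≤ (C : ℝ) * (n : ℝ) ^ 18 := by exact_mod_cast hC n hn1
      have h3 : (0 : ℝ) ≤ (n : ℝ) ^ 18 := by positivity
      nlinarith
    calc (D n : ℝ) ^ ((1 : ℝ) / (n : ℝ))
        ≤ (((C : ℝ) + 1) * (n : ℝ) ^ 18) ^ ((1 : ℝ) / (n : ℝ)) :=
          Real.rpow_le_rpow (by positivity) hD (by positivity)
      _ = ((C : ℝ) + 1) ^ ((1 : ℝ) / (n : ℝ)) * ((n : ℝ) ^ 18) ^ ((1 : ℝ) / (n : ℝ)) :=
          Real.mul_rpow hCpos.le (by positivity)
      _ = ((C : ℝ) + 1) ^ ((1 : ℝ) / (n : ℝ)) * ((n : ℝ) ^ ((1 : ℝ) / (n : ℝ))) ^ 18 := by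
          rw [← Real.rpow_natCast (n : ℝ) 18, ← Real.rpow_mul hn0, mul_comm ((18 : ℕ) : ℝ),
            Real.rpow_mul hn0, Real.rpow_natCast]

lemma not_comparable {D : ℕ → ℕ} (h : ∀ C n₀ : ℕ, ∃ n, n₀ ≤ n ∧ C * n ^ 3 < D n) {ℓ : ℕ}
    (hℓ : ℓ ≤ 3) : ¬ Comparable (fun n => (D n : ℝ)) (fun n => (n : ℝ) ^ ℓ * (1 : ℝ) ^ n) := by
  rintro ⟨c₁, c₂, c₃, h1, _, _, hcomp⟩
  obtain ⟨C, hC⟩ := exists_nat_ge (1 / c₁)
  obtain ⟨n₀, hn₀⟩ := exists_nat_ge c₃
  obtain ⟨n, hn, hlt⟩ := h C (n₀ + 1)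
  have hn1 : 1 ≤ n := by omega
  have hnr : (1 : ℝ) ≤ (n : ℝ) := by exact_mod_cast hn1
  have hge : c₃ ≤ (n : ℝ) := by
    have : (n₀ : ℝ) + 1 ≤ (n : ℝ) := by exact_mod_cast hn
    linarith
  have h4 := (hcomp n hge).1
  simp only [one_pow, mul_one] at h4
  have h5 : (n : ℝ) ^ ℓ ≤ (n : ℝ) ^ 3 := pow_le_pow_right₀ hnr hℓ
  have h6 : (C : ℝ) * (n : ℝ) ^ 3 < (D n : ℝ) := by exact_mod_cast hlt
  have h7 : c₁ * (D n : ℝ) ≤ (n : ℝ) ^ 3 := h4.trans h5
  have h8 : 1 ≤ c₁ * (C : ℝ) := by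
    rw [div_le_iff₀ h1] at hC
    linarith
  have h9 : (0 : ℝ) < (n : ℝ) ^ 3 := by positivity
  have h10 : c₁ * ((C : ℝ) * (n : ℝ) ^ 3) < c₁ * (D n : ℝ) := mul_lt_mul_of_pos_left h6 h1
  nlinarith

end Analysis

/-- For every field `K` of characteristic different from 2 and 3 there is a dominant rational map of
projective 3-space over `K` whose sequence of iterate degrees `D n` is not comparable to
`n ^ ℓ * δ ^ n` for any `ℓ` in `{0, 1, 2, 3}`, where `δ` is its dynamical degree. -/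
theorem result (K : Type u) [Field K] (h2 : (2 : K) ≠ 0) (h3 : (3 : K) ≠ 0) :
    ∃ (F : Fin (3 + 1) → MvPolynomial (Fin (3 + 1)) K) (d : ℕ) (D : ℕ → ℕ) (δ : ℝ),
      IsReduced F d ∧ IsDominant F ∧
      (∀ n e : ℕ, IsIterateDegree F n e ↔ e = D n) ∧
      Tendsto (fun n : ℕ => (D n : ℝ) ^ ((1 : ℝ) / (n : ℝ))) atTop (𝓝 δ) ∧
      ∀ ℓ : ℕ, ℓ ≤ 3 →
        ¬ Comparable (fun n => (D n : ℝ)) (fun n => (n : ℝ) ^ ℓ * δ ^ n) := by
  obtain ⟨F, d, D, hred, hdom, hdeg, hone, hup, hlow⟩ := growth (K := K) h2 h3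
  refine ⟨F, d, D, 1, hred, hdom, fun n e => ⟨fun h => ?_, fun h => h ▸ hdeg n⟩,
    tendsto_root hone hup, fun ℓ hℓ => not_comparable hlow hℓ⟩
  exact iterateDegree_unique h (hdeg n)

end Pool.Agent.Results.MP_55ef7c_ag.QuarticGrowth
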